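import Pool.Agent.R711.DD.Ident

/-!
Exact values of `u n` for `n < 16` and kernel-checked integer tables.
-/

namespace Pool.Agent.R711.DD

open Finset

/-- Numbers of permutations without double descents. -/
def uL : List ℕ :=
  [1, 1, 2, 5, 17, 70, 349, 2017, 13358, 99377, 822041, 7477162, 74207209, 797771521, 9236662346,
   114579019469]

/-- The same numbers times `16!/n!`. -/
def AL : List ℤ :=
  [20922789888000, 20922789888000, 20922789888000, 17435658240000, 14820309504000,
   12204960768000, 10141741209600, 8373267302400, 6931711987200, 5729839315200, 4739691116160,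
   3919229233920, 3241370889120, 2680512310560, 2216798963040, 1833264311504]

/-- `32!/n!`. -/
def BL : List ℤ :=
  [263130836933693530167218012160000000, 263130836933693530167218012160000000,
   131565418466846765083609006080000000, 43855139488948921694536335360000000,
   10963784872237230423634083840000000, 2192756974447446084726816768000000,
   365459495741241014121136128000000, 52208499391605859160162304000000,
   6526062423950732395020288000000, 725118047105636932780032000000,
   72511804710563693278003200000, 6591982246414881207091200000, 549331853867906767257600000,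
   42256296451377443635200000, 3018306889384103116800000, 201220459292273541120000,
   12576278705767096320000, 739781100339240960000, 41098950018846720000, 2163102632570880000,
   108155131628544000, 5150244363264000, 234102016512000, 10178348544000, 424097856000,
   16963914240, 652458240, 24165120, 863040, 29760, 992, 32]

/-- Sum over `k < n`. -/
noncomputable def sumTo (f : ℕ → ℤ) (n : ℕ) : ℤ := Nat.rec 0 (fun k s => s + f k) n

lemma sumTo_eq (f : ℕ → ℤ) (n : ℕ) : sumTo f n = ∑ k ∈ range n, f k := by
  induction n with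
  | zero => rfl
  | succ n ih => rw [Finset.sum_range_succ, ← ih]; rfl

lemma uL_rec : ∀ n ∈ range 16, sumTo (fun k => pz k * (n.choose k : ℤ) * ((uL.getD (n - k) 0 : ℕ) : ℤ)) (n + 1)
    = if n = 0 then 1 else 0 := by decide +kernel

lemma AL_rec : ∀ n ∈ range 16, AL.getD n 0 * (n.factorial : ℤ) = ((uL.getD n 0 : ℕ) : ℤ) * (Nat.factorial 16 : ℤ) := by
  decide +kernel

lemma BL_rec : ∀ n ∈ range 32, BL.getD n 0 * (n.factorial : ℤ) = (Nat.factorial 32 : ℤ) := by
  decide +kernel

lemma u_val (n : ℕ) (hn : n < 16) : u n = ((uL.getD n 0 : ℕ) : ℝ) / (n.factorial : ℝ) := by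
  induction n using Nat.strong_induction_on with
  | _ n ih =>
    have h1 := A1 n
    have h2 := uL_rec n (by simpa using hn)
    rw [sumTo_eq] at h2
    have h3 : ∑ k ∈ range (n + 1), p k * (1 / (k.factorial : ℝ)) *
        (((uL.getD (n - k) 0 : ℕ) : ℝ) / ((n - k).factorial : ℝ)) = if n = 0 then 1 else 0 := by
      have h4 : ((∑ k ∈ range (n + 1), pz k * (n.choose k : ℤ) * ((uL.getD (n - k) 0 : ℕ) : ℤ) : ℤ) : ℝ)
          = (n.factorial : ℝ) * ∑ k ∈ range (n + 1), p k * (1 / (k.factorial : ℝ)) *
        (((uL.getD (n - k) 0 : ℕ) : ℝ) / ((n - k).factorial : ℝ)) := by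
        rw [Finset.mul_sum, Int.cast_sum]
        apply Finset.sum_congr rfl
        intro k hk
        have hk' : k ≤ n := by simpa [Nat.lt_succ_iff] using hk
        push_cast
        rw [Nat.cast_choose ℝ hk']
        unfold p
        have f1 : (k.factorial : ℝ) ≠ 0 := by positivity
        have f2 : ((n - k).factorial : ℝ) ≠ 0 := by positivity
        field_simp
      rw [h2] at h4
      have f3 : (n.factorial : ℝ) ≠ 0 := by positivity
      by_cases h0 : n = 0
      · subst h0
        simpa using h4.symm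
      · rw [if_neg h0] at h4 ⊢
        have : (n.factorial : ℝ) * ∑ k ∈ range (n + 1), p k * (1 / (k.factorial : ℝ)) *
          (((uL.getD (n - k) 0 : ℕ) : ℝ) / ((n - k).factorial : ℝ)) = 0 := by
          rw [← h4]; norm_num
        exact (mul_eq_zero.1 this).resolve_left f3
    rw [← h3] at h1
    rw [Finset.sum_range_succ', Finset.sum_range_succ'] at h1
    have h5 : ∑ k ∈ range n, p (k + 1) * (1 / ((k + 1).factorial : ℝ)) * u (n - (k + 1))
        = ∑ k ∈ range n, p (k + 1) * (1 / ((k + 1).factorial : ℝ)) *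
        (((uL.getD (n - (k + 1)) 0 : ℕ) : ℝ) / ((n - (k + 1)).factorial : ℝ)) := by
      apply Finset.sum_congr rfl
      intro k hk
      simp only [Finset.mem_range] at hk
      rw [ih (n - (k + 1)) (by omega) (by omega)]
    rw [h5] at h1
    have h6 := add_left_cancel h1
    simpa [p_zero] using h6

lemma u_val' (n : ℕ) (hn : n < 16) : u n = (AL.getD n 0 : ℝ) / (Nat.factorial 16 : ℝ) := by
  rw [u_val n hn]
  have h := AL_rec n (by simpa using hn)
  have h' : ((AL.getD n 0 : ℤ) : ℝ) * (n.factorial : ℝ)
      = ((uL.getD n 0 : ℕ) : ℝ) * (Nat.factorial 16 : ℝ) := by exact_mod_cast h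
  have f1 : (n.factorial : ℝ) ≠ 0 := by positivity
  have f2 : (Nat.factorial 16 : ℝ) ≠ 0 := by positivity
  rw [div_eq_div_iff f1 f2]
  linarith

lemma inv_fact (n : ℕ) (hn : n < 32) : 1 / (n.factorial : ℝ) = (BL.getD n 0 : ℝ) / (Nat.factorial 32 : ℝ) := by
  have h := BL_rec n (by simpa using hn)
  have h' : ((BL.getD n 0 : ℤ) : ℝ) * (n.factorial : ℝ)
      = (Nat.factorial 32 : ℝ) := by exact_mod_cast h
  have f1 : (n.factorial : ℝ) ≠ 0 := by positivity
  have f2 : (Nat.factorial 32 : ℝ) ≠ 0 := by positivity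
  rw [div_eq_div_iff f1 f2]
  linarith

/-- `q` with period `3`. -/
def qz (n : ℕ) : ℤ := if n % 3 = 1 then 1 else if n % 3 = 2 then -1 else 0

/-- The coefficient matrix. -/
def LZ (a b : ℕ) : ℤ := qz a * qz (b + 1) - qz (a + 1) * qz b

lemma LZ_anti (a b : ℕ) : LZ b a = - LZ a b := by unfold LZ; ring

lemma abs_LZ (a b : ℕ) : |(LZ a b : ℝ)| ≤ 1 := by
  have h : LZ a b = 0 ∨ LZ a b = 1 ∨ LZ a b = -1 := by
    unfold LZ qz
    have ha : a % 3 = 0 ∨ a % 3 = 1 ∨ a % 3 = 2 := by omega
    have hb : b % 3 = 0 ∨ b % 3 = 1 ∨ b % 3 = 2 := by omega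
    rcases ha with ha | ha | ha <;> rcases hb with hb | hb | hb <;>
      simp [Nat.add_mod, ha, hb]
  rcases h with h | h | h <;> simp [h]

/-- Integer version of the double sum. -/
noncomputable def DZ (i j : ℕ) : ℤ :=
  sumTo (fun a => sumTo (fun b => LZ a b * (BL.getD (a + b + 2) 0 *
    (AL.getD (i - 1 - a) 0 * AL.getD (j - 1 - b) 0))) j) i

/-- The common denominator. -/
def den : ℕ := Nat.factorial 32 * Nat.factorial 16 ^ 2

lemma den_pos : 0 < den := by unfold den; positivity

set_option maxRecDepth 100000 in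
lemma check1 : ∀ i ∈ range 13, ∀ j ∈ range 15, i + 2 < j → 0 < (-1) ^ i * DZ (i + 2) j := by
  decide +kernel

set_option maxRecDepth 100000 in
lemma check2 : ∀ i ∈ range 13, ∀ j ∈ range 2,
    2 * 5 ^ (i + 2 + (j + 15) + 2) * (den : ℤ)
      ≤ 1000000 * 6 ^ (i + 2 + (j + 15) + 2) * ((-1) ^ i * DZ (i + 2) (j + 15)) := by
  decide +kernel

set_option maxRecDepth 100000 in
lemma check3 : 58 * 5 ^ 33 * (den : ℤ) ≤ 100 * 6 ^ 33 * 2 ^ 15 * (- DZ 15 16) := by
  decide +kernel

end Pool.Agent.R711.DD
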