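import Pool.Agent.R711.DD.Series
import Pool.Agent.R711.DD.Table

/-!
Bounds: the numbers `U n` satisfy a two-term averaging recursion up to `O(4^(-n))`, and
so do the rows of the rescaled differences `Dd i j`.
-/

namespace Pool.Agent.R711.DD

open Finset PowerSeries

/-- `(1-X)(1+X/2)`. -/
noncomputable def Pp : PowerSeries ℝ := 1 - C (1 / 2) * X - C (1 / 2) * (X * X)

lemma Pp_mul (F : PowerSeries ℝ) :
    Pp * F = F - C (1 / 2) * (X * F) - C (1 / 2) * (X * (X * F)) := by
  unfold Pp; ring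

lemma coeff_Pp_zero (F : PowerSeries ℝ) : coeff 0 (Pp * F) = coeff 0 F := by
  rw [Pp_mul]; simp

lemma coeff_Pp_one (F : PowerSeries ℝ) : coeff 1 (Pp * F) = coeff 1 F - 1 / 2 * coeff 0 F := by
  rw [Pp_mul]
  simp only [map_sub, coeff_C_mul]
  have h1 : coeff 1 (X * F) = coeff 0 F := coeff_succ_X_mul 0 F
  have h2 : coeff 1 (X * (X * F)) = 0 := by
    have := coeff_succ_X_mul 0 (X * F)
    rw [this]; simp
  rw [h1, h2]; ring

lemma coeff_Pp_succ (F : PowerSeries ℝ) (n : ℕ) : coeff (n + 2) (Pp * F) =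
    coeff (n + 2) F - 1 / 2 * coeff (n + 1) F - 1 / 2 * coeff n F := by
  rw [Pp_mul]
  simp only [map_sub, coeff_C_mul]
  rw [show n + 2 = n + 1 + 1 by rfl, coeff_succ_X_mul, coeff_succ_X_mul, coeff_succ_X_mul]

/-- `ρ`. -/
noncomputable def rho (n : ℕ) : ℝ := coeff n (Pp * mk V)

/-- `w`. -/
noncomputable def w (n : ℕ) : ℝ := coeff n (Pp * mk U)

lemma V_eq (n : ℕ) : V n = 1 + 1 / 2 * (-1 / 2) ^ n + nu n := by unfold nu; ring

lemma abs_nu_le (n : ℕ) : |nu n| ≤ 16 / 15 * (1 / 4) ^ n := by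
  rcases n with _ | n
  · obtain ⟨h1, h2⟩ := x0_bds
    unfold nu
    rw [V_zero, abs_le]
    constructor <;> norm_num <;> linarith
  · exact nu_succ n

lemma abs_rho_le (n : ℕ) : |rho n| ≤ 12 * (1 / 4) ^ n := by
  obtain ⟨h1, h2⟩ := x0_bds
  unfold rho
  rcases n with _ | _ | n
  · rw [coeff_Pp_zero, coeff_mk, V_zero, abs_of_pos x0_pos]
    norm_num; linarith
  · rw [coeff_Pp_one, coeff_mk, coeff_mk, V_zero, V_eq]
    have := abs_nu_le 1
    rw [abs_le] at this ⊢
    constructor <;> norm_num at this ⊢ <;> linarith [this.1, this.2]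
  · rw [coeff_Pp_succ, coeff_mk, coeff_mk, coeff_mk, V_eq, V_eq, V_eq]
    have e : (1:ℝ) + 1 / 2 * (-1 / 2) ^ (n + 2) + nu (n + 2)
        - 1 / 2 * (1 + 1 / 2 * (-1 / 2) ^ (n + 1) + nu (n + 1))
        - 1 / 2 * (1 + 1 / 2 * (-1 / 2) ^ n + nu n)
        = nu (n + 2) - 1 / 2 * nu (n + 1) - 1 / 2 * nu n := by
      rw [pow_succ, pow_succ]; ring
    rw [e]
    have a1 := abs_nu_le (n + 2)
    have a2 := abs_nu_le (n + 1)
    have a3 := abs_nu_le n
    have h4 : (0:ℝ) < (1 / 4) ^ n := by positivity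
    rw [pow_succ, pow_succ] at a1
    rw [pow_succ] at a2
    rw [show (1 / 4 : ℝ) ^ (n + 1 + 1) = (1 / 4) ^ n * (1 / 4) * (1 / 4) by rw [pow_succ, pow_succ]]
    rw [abs_le] at a1 a2 a3 ⊢
    constructor <;> nlinarith [a1.1, a1.2, a2.1, a2.2, a3.1, a3.2]

lemma mk_w : mk w = mk ex * mk rho := by
  have e1 : mk w = Pp * mk U := by ext n; simp [w]
  have e2 : mk rho = Pp * mk V := by ext n; simp [rho]
  rw [e1, e2, U_eq]; ring

lemma exp_52 : Real.exp (5 / 2) < 12.25 := by
  have h1 : Real.exp (5 / 2) ^ 2 = Real.exp 1 ^ 5 := by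
    rw [← Real.exp_nat_mul, ← Real.exp_nat_mul]; norm_num
  have h2 := Real.exp_one_lt_d9
  have h3 : Real.exp 1 ^ 5 < 2.7182818286 ^ 5 := by
    apply pow_lt_pow_left₀ h2 (Real.exp_pos 1).le (by norm_num)
  have h4 : Real.exp (5 / 2) ^ 2 < 12.25 ^ 2 := by
    rw [h1]; refine h3.trans ?_; norm_num
  exact lt_of_pow_lt_pow_left₀ 2 (by norm_num) h4

lemma exp_5 : Real.exp 5 < 148.5 := by
  have h1 : Real.exp 5 = Real.exp 1 ^ 5 := by
    rw [← Real.exp_nat_mul]; norm_num
  have h2 := Real.exp_one_lt_d9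
  have h3 : Real.exp 1 ^ 5 < 2.7182818286 ^ 5 := by
    apply pow_lt_pow_left₀ h2 (Real.exp_pos 1).le (by norm_num)
  rw [h1]; refine h3.trans ?_; norm_num

lemma abs_w_le (n : ℕ) : |w n| ≤ 150 * (1 / 4) ^ n := by
  have h1 : w n = ∑ k ∈ range (n + 1), ex k * rho (n - k) := by
    have := congrArg (coeff n) mk_w
    rw [coeff_mk, coeff_mul, Finset.Nat.sum_antidiagonal_eq_sum_range_succ_mk] at this
    simpa using this
  rw [h1]
  calc |∑ k ∈ range (n + 1), ex k * rho (n - k)| ≤ ∑ k ∈ range (n + 1), |ex k * rho (n - k)| :=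
        Finset.abs_sum_le_sum_abs _ _
    _ ≤ ∑ k ∈ range (n + 1), 12 * (1 / 4) ^ n * ((2 * x0) ^ k / k.factorial) := by
        apply Finset.sum_le_sum
        intro k hk
        have hk' : k ≤ n := by simpa [Nat.lt_succ_iff] using hk
        rw [abs_mul]
        have hx := x0_pos
        have e1 : |ex k| = (x0 / 2) ^ k / k.factorial := by
          unfold ex; rw [abs_of_nonneg (by positivity)]
        rw [e1]
        have e2 := abs_rho_le (n - k)
        calc (x0 / 2) ^ k / k.factorial * |rho (n - k)|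
            ≤ (x0 / 2) ^ k / k.factorial * (12 * (1 / 4) ^ (n - k)) := by gcongr
          _ = _ := by
            have e3 : (1 / 4 : ℝ) ^ n = (1 / 4) ^ k * (1 / 4) ^ (n - k) := by
              rw [← pow_add]; congr 1; omega
            have e4 : (x0 / 2) ^ k = (2 * x0) ^ k * (1 / 4) ^ k := by
              rw [← mul_pow]; congr 1; ring
            rw [e3, e4]; ring
    _ = 12 * (1 / 4) ^ n * ∑ k ∈ range (n + 1), ((2 * x0) ^ k / k.factorial) := by
        rw [Finset.mul_sum]
    _ ≤ 12 * (1 / 4) ^ n * 12.25 := by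
        gcongr
        have hx := x0_pos
        refine (Real.sum_le_exp_of_nonneg (by positivity) _).trans ?_
        refine le_trans ?_ exp_52.le
        apply Real.exp_le_exp.2
        have := x0_bds.2
        linarith
    _ ≤ 150 * (1 / 4) ^ n := by
        have h4 : (0:ℝ) < (1 / 4) ^ n := by positivity
        nlinarith

lemma U_zero : U 0 = x0 := by
  have := congrArg (coeff 0) U_eq
  simpa [ex, V_zero] using this

lemma U_nonneg_le (n : ℕ) (hn : n < 12) : |U n| ≤ 1.89 := by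
  have hx := x0_pos
  have hx2 := x0_bds.2
  have h1 : U n = ((uL.getD n 0 : ℕ) : ℝ) / (n.factorial : ℝ) * x0 ^ (n + 1) := by
    unfold U; rw [u_val n (by omega)]
  rw [h1, abs_of_nonneg (by positivity)]
  have h2 : x0 ^ (n + 1) ≤ 1.2093 ^ (n + 1) := by gcongr
  refine (mul_le_mul_of_nonneg_left h2 (by positivity)).trans ?_
  interval_cases n <;> norm_num [uL, Nat.factorial]

lemma abs_U_le' (n : ℕ) : |U (n + 10)| ≤ 1.9 + 200 * ((1 / 4) ^ 12 - (1 / 4) ^ (n + 11)) := by
  induction n using Nat.strong_induction_on with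
  | _ n ih =>
    rcases n with _ | _ | n
    · refine (U_nonneg_le 10 (by norm_num)).trans ?_
      norm_num
    · refine (U_nonneg_le 11 (by norm_num)).trans ?_
      norm_num
    · have hw := abs_w_le (n + 10 + 2)
      unfold w at hw
      rw [coeff_Pp_succ, coeff_mk, coeff_mk, coeff_mk] at hw
      have i1 := ih (n + 1) (by omega)
      have i2 := ih n (by omega)
      have h4 : (0:ℝ) < (1 / 4) ^ (n + 10) := by positivity
      rw [show (1 / 4 : ℝ) ^ (n + 10 + 2) = (1 / 4) ^ (n + 10) * (1 / 16) by rw [pow_add]; norm_num] at hw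
      rw [show (1 / 4 : ℝ) ^ (n + 1 + 1 + 11) = (1 / 4) ^ (n + 10) * (1 / 64) by
        rw [show n + 1 + 1 + 11 = n + 10 + 3 by ring, pow_add]; norm_num]
      rw [show (1 / 4 : ℝ) ^ (n + 1 + 11) = (1 / 4) ^ (n + 10) * (1 / 16) by
        rw [show n + 1 + 11 = n + 10 + 2 by ring, pow_add]; norm_num] at i1
      rw [show (1 / 4 : ℝ) ^ (n + 11) = (1 / 4) ^ (n + 10) * (1 / 4) by
        rw [show n + 11 = n + 10 + 1 by ring, pow_add]; norm_num] at i2
      rw [show n + 1 + 10 = n + 10 + 1 by ring] at i1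
      rw [show n + 1 + 1 + 10 = n + 10 + 2 by ring]
      rw [abs_le] at hw i1 i2 ⊢
      constructor <;> nlinarith [hw.1, hw.2, i1.1, i1.2, i2.1, i2.2]

lemma abs_U_le (n : ℕ) : |U n| ≤ 2 := by
  by_cases hn : n < 12
  · refine (U_nonneg_le n hn).trans (by norm_num)
  · obtain ⟨m, rfl⟩ : ∃ m, n = m + 10 := ⟨n - 10, by omega⟩
    have h := abs_U_le' m
    have h4 : (0:ℝ) < (1 / 4) ^ (m + 11) := by positivity
    have h5 : (1 / 4 : ℝ) ^ 12 < 1 / 10000 := by norm_num
    linarith

/-- The coefficients of the `i`-th row. -/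
noncomputable def cc (i b : ℕ) : ℝ :=
  ∑ a ∈ range i, (LZ a b : ℝ) * (x0 ^ (a + b + 2) / ((a + b + 2).factorial : ℝ)) * U (i - 1 - a)

/-- The rescaled differences. -/
noncomputable def Dd (i j : ℕ) : ℝ := ∑ b ∈ range j, cc i b * U (j - 1 - b)

lemma mk_Dd (i : ℕ) : mk (fun j => Dd i (j + 1)) = mk (cc i) * mk U := by
  ext n
  rw [coeff_mk, coeff_mul, Finset.Nat.sum_antidiagonal_eq_sum_range_succ_mk]
  unfold Dd
  apply Finset.sum_congr rfl
  intro k _
  rw [coeff_mk, coeff_mk]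
  congr 2

lemma row_bd (i n : ℕ) : |coeff n (Pp * mk (fun j => Dd i (j + 1)))| ≤ 4000 * (1 / 4) ^ n := by
  have hx := x0_pos
  have e1 : Pp * mk (fun j => Dd i (j + 1)) = mk (cc i) * mk w := by
    have e1 : mk w = Pp * mk U := by ext n; simp [w]
    rw [mk_Dd, e1]; ring
  rw [e1, coeff_mul, Finset.Nat.sum_antidiagonal_eq_sum_range_succ_mk]
  simp only [coeff_mk]
  calc |∑ k ∈ range (n + 1), cc i k * w (n - k)|
      ≤ ∑ k ∈ range (n + 1), |cc i k * w (n - k)| := Finset.abs_sum_le_sum_abs _ _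
    _ ≤ ∑ k ∈ range (n + 1), ∑ a ∈ range i, 300 * (1 / 4) ^ n *
          ((1 / 4) ^ (a + 2) * ((4 * x0) ^ (a + k + 2) / ((a + k + 2).factorial : ℝ))) := by
        apply Finset.sum_le_sum
        intro k hk
        have hk' : k ≤ n := by simpa [Nat.lt_succ_iff] using hk
        rw [abs_mul]
        have b1 : |cc i k| ≤ ∑ a ∈ range i, (x0 ^ (a + k + 2) / ((a + k + 2).factorial : ℝ)) * 2 := by
          unfold cc
          refine (Finset.abs_sum_le_sum_abs _ _).trans ?_
          apply Finset.sum_le_sum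
          intro a _
          rw [abs_mul, abs_mul]
          have c1 := abs_LZ a k
          have c2 := abs_U_le (i - 1 - a)
          have c3 : |x0 ^ (a + k + 2) / ((a + k + 2).factorial : ℝ)|
            = x0 ^ (a + k + 2) / ((a + k + 2).factorial : ℝ) := abs_of_nonneg (by positivity)
          rw [c3]
          calc |(LZ a k : ℝ)| * (x0 ^ (a + k + 2) / ((a + k + 2).factorial : ℝ)) * |U (i - 1 - a)|
              ≤ 1 * (x0 ^ (a + k + 2) / ((a + k + 2).factorial : ℝ)) * 2 := by gcongr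
            _ = _ := by ring
        have b2 := abs_w_le (n - k)
        calc |cc i k| * |w (n - k)| ≤
            (∑ a ∈ range i, (x0 ^ (a + k + 2) / ((a + k + 2).factorial : ℝ)) * 2) * (150 * (1 / 4) ^ (n - k)) := by
              gcongr
          _ = _ := by
            rw [Finset.sum_mul]
            apply Finset.sum_congr rfl
            intro a _
            have e3 : (1 / 4 : ℝ) ^ n = (1 / 4) ^ k * (1 / 4) ^ (n - k) := by
              rw [← pow_add]; congr 1; omega
            have e4 : x0 ^ (a + k + 2) = (1 / 4) ^ k * ((1 / 4) ^ (a + 2) * (4 * x0) ^ (a + k + 2)) := by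
              rw [← mul_assoc, ← pow_add, show k + (a + 2) = a + k + 2 by ring, ← mul_pow]
              congr 1; ring
            rw [e3, e4]; ring
    _ = 300 * (1 / 4) ^ n * ∑ a ∈ range i, (1 / 4) ^ (a + 2) *
          ∑ k ∈ range (n + 1), ((4 * x0) ^ (a + k + 2) / ((a + k + 2).factorial : ℝ)) := by
        rw [Finset.sum_comm, Finset.mul_sum]
        apply Finset.sum_congr rfl
        intro a _
        rw [Finset.mul_sum, Finset.mul_sum]
    _ ≤ 300 * (1 / 4) ^ n * ∑ a ∈ range i, (1 / 4) ^ (a + 2) * 148.5 := by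
        gcongr with a ha
        have hs : ∑ k ∈ range (n + 1), ((4 * x0) ^ (a + k + 2) / ((a + k + 2).factorial : ℝ))
            ≤ ∑ m ∈ range (a + 2 + (n + 1)), ((4 * x0) ^ m / (m.factorial : ℝ)) := by
          rw [Finset.sum_range_add _ (a + 2) (n + 1)]
          have : 0 ≤ ∑ m ∈ range (a + 2), ((4 * x0) ^ m / (m.factorial : ℝ)) :=
            Finset.sum_nonneg (fun m _ => by positivity)
          have e5 : ∑ k ∈ range (n + 1), ((4 * x0) ^ (a + k + 2) / ((a + k + 2).factorial : ℝ))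
              = ∑ k ∈ range (n + 1), ((4 * x0) ^ (a + 2 + k) / ((a + 2 + k).factorial : ℝ)) := by
            apply Finset.sum_congr rfl
            intro k _
            rw [show a + k + 2 = a + 2 + k by ring]
          rw [e5]; linarith
        refine hs.trans ?_
        refine (Real.sum_le_exp_of_nonneg (by positivity) _).trans ?_
        refine le_trans ?_ exp_5.le
        apply Real.exp_le_exp.2
        have := x0_bds.2
        linarith
    _ ≤ 300 * (1 / 4) ^ n * (1 / 12 * 148.5) := by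
        rw [← Finset.sum_mul]
        gcongr
        have h6 : ∀ i : ℕ, ∑ a ∈ range i, (1 / 4 : ℝ) ^ (a + 2) = 1 / 12 * (1 - (1 / 4) ^ i) := by
          intro i
          induction i with
          | zero => simp
          | succ i ih => rw [Finset.sum_range_succ, ih]; ring
        rw [h6]
        have h4 : (0:ℝ) < (1 / 4) ^ i := by positivity
        linarith
    _ ≤ 4000 * (1 / 4) ^ n := by
        have h4 : (0:ℝ) < (1 / 4) ^ n := by positivity
        nlinarith

lemma row_rec (i j : ℕ) (hj : 1 ≤ j) :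
    |Dd i (j + 2) - 1 / 2 * Dd i (j + 1) - 1 / 2 * Dd i j| ≤ 4000 * (1 / 4) ^ (j + 1) := by
  obtain ⟨m, rfl⟩ : ∃ m, j = m + 1 := ⟨j - 1, by omega⟩
  have h := row_bd i (m + 2)
  rw [coeff_Pp_succ, coeff_mk, coeff_mk, coeff_mk] at h
  exact h

lemma Dd_eq (i j : ℕ) : Dd i j = x0 ^ (i + j + 2) * ∑ a ∈ range i, ∑ b ∈ range j,
    (LZ a b : ℝ) * (1 / ((a + b + 2).factorial : ℝ)) * (u (i - 1 - a) * u (j - 1 - b)) := by
  unfold Dd cc
  simp only [Finset.sum_mul]
  rw [Finset.sum_comm, Finset.mul_sum]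
  apply Finset.sum_congr rfl
  intro a ha
  rw [Finset.mul_sum]
  apply Finset.sum_congr rfl
  intro b hb
  simp only [Finset.mem_range] at ha hb
  unfold U
  have e : x0 ^ (i + j + 2) = x0 ^ (a + b + 2) * x0 ^ (i - 1 - a + 1) * x0 ^ (j - 1 - b + 1) := by
    rw [← pow_add, ← pow_add]; congr 1; omega
  rw [e]; ring

lemma Dd_anti (i j : ℕ) : Dd j i = - Dd i j := by
  rw [Dd_eq, Dd_eq, Finset.sum_comm, ← mul_neg, ← Finset.sum_neg_distrib]
  rw [show j + i + 2 = i + j + 2 by ring]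
  congr 1
  apply Finset.sum_congr rfl
  intro a _
  rw [← Finset.sum_neg_distrib]
  apply Finset.sum_congr rfl
  intro b _
  rw [LZ_anti a b, show b + a + 2 = a + b + 2 by ring]
  push_cast
  ring

lemma Dd_self (i : ℕ) : Dd i i = 0 := by
  have := Dd_anti i i
  linarith

lemma Dd_val (i j : ℕ) (hi : i ≤ 15) (hj : j ≤ 16) :
    Dd i j = x0 ^ (i + j + 2) * ((DZ i j : ℝ) / (den : ℝ)) := by
  rw [Dd_eq]
  congr 1
  unfold DZ
  rw [sumTo_eq, Int.cast_sum, Finset.sum_div]
  apply Finset.sum_congr rfl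
  intro a ha
  rw [sumTo_eq, Int.cast_sum, Finset.sum_div]
  apply Finset.sum_congr rfl
  intro b hb
  simp only [Finset.mem_range] at ha hb
  rw [u_val' (i - 1 - a) (by omega), u_val' (j - 1 - b) (by omega), inv_fact (a + b + 2) (by omega)]
  have f1 : (Nat.factorial 32 : ℝ) ≠ 0 := by positivity
  have f2 : (Nat.factorial 16 : ℝ) ≠ 0 := by positivity
  have e : (den : ℝ) = (Nat.factorial 32 : ℝ) * (Nat.factorial 16 : ℝ) ^ 2 := by
    unfold den; push_cast; ring
  rw [e]
  push_cast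
  field_simp

end Pool.Agent.R711.DD
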