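import Mathlib

/-!
Combinatorial part for MP_452684_co: independence of blocks and the two
inclusion-exclusion identities for double descents.
-/

namespace Pool.Agent.R711.DD

open Finset Equiv

/-- Descent flags of a word `f` of length `n`; letters are indexed from `0`, and
`des f j` says that letter `j+1` exists and is smaller than letter `j`. -/
def des {n : ℕ} {α : Type*} [LT α] (f : Fin n → α) (j : ℕ) : Prop :=
  ∃ h : j + 1 < n, f ⟨j + 1, h⟩ < f ⟨j, Nat.lt_of_succ_lt h⟩

lemma des_comp {n : ℕ} {α β : Type*} [LinearOrder α] [LinearOrder β] (f : Fin n → α)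
    {g : α → β} (hg : StrictMono g) : des (g ∘ f) = des f := by
  funext j
  apply propext
  unfold des
  constructor
  · rintro ⟨h, h'⟩
    exact ⟨h, hg.lt_iff_lt.1 h'⟩
  · rintro ⟨h, h'⟩
    exact ⟨h, hg.lt_iff_lt.2 h'⟩

/-- The sum of `F` over the descent flags of all permutations. -/
noncomputable def S (n : ℕ) (F : (ℕ → Prop) → ℝ) : ℝ := ∑ w : Perm (Fin n), F (des w)

/-- The average of `F` over the descent flags of all permutations. -/
noncomputable def E (n : ℕ) (F : (ℕ → Prop) → ℝ) : ℝ := S n F / (n.factorial : ℝ)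

lemma sum_comp {k : ℕ} {α : Type*} [LinearOrder α] (f : Fin k → α)
    (hf : Function.Injective f) (F : (ℕ → Prop) → ℝ) :
    ∑ h : Perm (Fin k), F (des (f ∘ h)) = S k F := by
  have hm : Monotone (f ∘ Tuple.sort f) := Tuple.monotone_sort f
  have hg : StrictMono (f ∘ Tuple.sort f) :=
    hm.strictMono_of_injective (hf.comp (Tuple.sort f).injective)
  have h1 : ∀ h : Perm (Fin k), f ∘ h = (f ∘ Tuple.sort f) ∘ ((Tuple.sort f)⁻¹ * h : Perm (Fin k)) := by
    intro h
    funext x
    simp [Function.comp]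
  have h2 : ∀ h : Perm (Fin k), F (des (f ∘ h)) = F (des ((Tuple.sort f)⁻¹ * h : Perm (Fin k))) := by
    intro h
    rw [h1 h, des_comp _ hg]
  rw [Finset.sum_congr rfl (fun h _ => h2 h)]
  exact Equiv.sum_comp (Equiv.mulLeft (Tuple.sort f)⁻¹) (fun h : Perm (Fin k) => F (des h))

/-- The permutation of `Fin (k+m)` acting by `a` on the first `k` and by `b` on the last `m`. -/
def blk {k m : ℕ} (a : Perm (Fin k)) (b : Perm (Fin m)) : Perm (Fin (k + m)) :=
  finSumFinEquiv.permCongr (Equiv.sumCongr a b)

lemma blk_left {k m : ℕ} (a : Perm (Fin k)) (b : Perm (Fin m)) (x : Fin k) :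
    blk a b (Fin.castAdd m x) = Fin.castAdd m (a x) := by
  simp [blk, Equiv.permCongr_apply]

lemma blk_right {k m : ℕ} (a : Perm (Fin k)) (b : Perm (Fin m)) (x : Fin m) :
    blk a b (Fin.natAdd k x) = Fin.natAdd k (b x) := by
  simp [blk, Equiv.permCongr_apply]

lemma indep_sum (k m : ℕ) (F G : (ℕ → Prop) → ℝ) :
    (k.factorial : ℝ) * m.factorial *
      ∑ w : Perm (Fin (k + m)), F (des (w ∘ Fin.castAdd m)) * G (des (w ∘ Fin.natAdd k))
      = ((k + m).factorial : ℝ) * (S k F * S m G) := by
  set Φ : Perm (Fin (k + m)) → ℝ := fun w =>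
    F (des (w ∘ Fin.castAdd m)) * G (des (w ∘ Fin.natAdd k)) with hΦ
  have h1 : ∀ (a : Perm (Fin k)) (b : Perm (Fin m)), ∑ w, Φ (w * blk a b) = ∑ w, Φ w := by
    intro a b
    exact Equiv.sum_comp (Equiv.mulRight (blk a b)) Φ
  have h2 : ∑ a : Perm (Fin k), ∑ b : Perm (Fin m), ∑ w, Φ (w * blk a b)
      = (k.factorial : ℝ) * m.factorial * ∑ w, Φ w := by
    simp only [h1, Finset.sum_const, Finset.card_univ, Fintype.card_perm, Fintype.card_fin,
      nsmul_eq_mul]
    ring
  have h3 : ∀ w : Perm (Fin (k + m)),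
      ∑ a : Perm (Fin k), ∑ b : Perm (Fin m), Φ (w * blk a b) = S k F * S m G := by
    intro w
    have e1 : ∀ (a : Perm (Fin k)) (b : Perm (Fin m)),
        Φ (w * blk a b) = F (des ((w ∘ Fin.castAdd m) ∘ a)) * G (des ((w ∘ Fin.natAdd k) ∘ b)) := by
      intro a b
      have e2 : (w * blk a b : Perm (Fin (k+m))) ∘ Fin.castAdd m = (w ∘ Fin.castAdd m) ∘ a := by
        funext x
        simp [Function.comp, blk_left]
      have e3 : (w * blk a b : Perm (Fin (k+m))) ∘ Fin.natAdd k = (w ∘ Fin.natAdd k) ∘ b := by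
        funext x
        simp [Function.comp, blk_right]
      simp only [hΦ]
      rw [e2, e3]
    simp only [e1]
    simp only [← Finset.mul_sum, ← Finset.sum_mul]
    rw [sum_comp _ (w.injective.comp (Fin.castAdd_injective k m)),
      sum_comp _ (w.injective.comp (Fin.natAdd_injective m k))]
  have h4 : ∑ a : Perm (Fin k), ∑ b : Perm (Fin m), ∑ w, Φ (w * blk a b)
      = ∑ w, ∑ a : Perm (Fin k), ∑ b : Perm (Fin m), Φ (w * blk a b) := by
    rw [Finset.sum_comm (s := (Finset.univ : Finset (Perm (Fin (k + m)))))]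
    exact Finset.sum_congr rfl (fun a _ => Finset.sum_comm)
  rw [← h2, h4]
  simp only [h3, Finset.sum_const, Finset.card_univ, Fintype.card_perm, Fintype.card_fin,
      nsmul_eq_mul]

/-- Flags of the first `k` letters. -/
def trunc (k : ℕ) (d : ℕ → Prop) : ℕ → Prop := fun j => j + 1 < k ∧ d j

/-- Flags after deleting the first `k` letters. -/
def shift (k : ℕ) (d : ℕ → Prop) : ℕ → Prop := fun j => d (k + j)

lemma des_castAdd {k m : ℕ} (w : Fin (k + m) → Fin (k + m)) :
    des (w ∘ Fin.castAdd m) = trunc k (des w) := by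
  funext j
  apply propext
  unfold des trunc
  constructor
  · rintro ⟨h, h'⟩
    exact ⟨h, by omega, h'⟩
  · rintro ⟨h, h1, h'⟩
    exact ⟨h, h'⟩

lemma des_natAdd {k m : ℕ} (w : Fin (k + m) → Fin (k + m)) :
    des (w ∘ Fin.natAdd k) = shift k (des w) := by
  funext j
  apply propext
  unfold des shift
  constructor
  · rintro ⟨h, h'⟩
    exact ⟨by omega, h'⟩
  · rintro ⟨h, h'⟩
    exact ⟨by omega, h'⟩

lemma E_mul (k m : ℕ) (F G : (ℕ → Prop) → ℝ) :
    E (k + m) (fun d => F (trunc k d) * G (shift k d)) = E k F * E m G := by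
  have h := indep_sum k m F G
  simp only [des_castAdd, des_natAdd] at h
  have hk : (k.factorial : ℝ) ≠ 0 := by positivity
  have hm : (m.factorial : ℝ) ≠ 0 := by positivity
  have hkm : ((k + m).factorial : ℝ) ≠ 0 := by positivity
  unfold E
  rw [show S (k + m) (fun d => F (trunc k d) * G (shift k d))
    = ∑ w : Perm (Fin (k + m)), F (trunc k (des w)) * G (shift k (des w)) from rfl]
  field_simp
  linarith [h]

lemma E_add (n : ℕ) (F G : (ℕ → Prop) → ℝ) : E n (fun d => F d + G d) = E n F + E n G := by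
  unfold E S
  rw [Finset.sum_add_distrib, add_div]

lemma E_const_mul (n : ℕ) (c : ℝ) (F : (ℕ → Prop) → ℝ) :
    E n (fun d => c * F d) = c * E n F := by
  unfold E S
  rw [← Finset.mul_sum, mul_div_assoc]

lemma E_sum (n : ℕ) {ι : Type*} (s : Finset ι) (F : ι → (ℕ → Prop) → ℝ) :
    E n (fun d => ∑ i ∈ s, F i d) = ∑ i ∈ s, E n (F i) := by
  unfold E S
  rw [Finset.sum_comm, Finset.sum_div]

/-- Flags that can come from a word with `n` letters. -/
def Ok (n : ℕ) (d : ℕ → Prop) : Prop := ∀ j, d j → j + 1 < n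

lemma ok_des {n : ℕ} {α : Type*} [LT α] (f : Fin n → α) : Ok n (des f) := fun _ h => h.1

lemma E_congr (n : ℕ) {F G : (ℕ → Prop) → ℝ} (h : ∀ d, Ok n d → F d = G d) :
    E n F = E n G := by
  unfold E S
  congr 1
  exact Finset.sum_congr rfl (fun w _ => h _ (ok_des _))

open Classical in
/-- Indicator. -/
noncomputable def ind (P : Prop) : ℝ := if P then 1 else 0

lemma ind_and (P Q : Prop) : ind (P ∧ Q) = ind P * ind Q := by
  unfold ind
  by_cases hP : P <;> by_cases hQ : Q <;> simp [hP, hQ]

lemma ind_true {P : Prop} (h : P) : ind P = 1 := by simp [ind, h]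

lemma ind_false {P : Prop} (h : ¬ P) : ind P = 0 := by simp [ind, h]

/-- No two consecutive descents. -/
def noDD (d : ℕ → Prop) : Prop := ∀ j, ¬ (d j ∧ d (j + 1))

/-- The first `k` letters are decreasing. -/
def dec (k : ℕ) (d : ℕ → Prop) : Prop := ∀ j, j + 1 < k → d j

/-- Normalized number of permutations without double descents. -/
noncomputable def u (n : ℕ) : ℝ := E n (fun d => ind (noDD d))

lemma E_dec (k : ℕ) : E k (fun d => ind (dec k d)) = 1 / (k.factorial : ℝ) := by
  unfold E S
  congr 1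
  have h : ∀ w : Perm (Fin k), ind (dec k (des w)) = if w = Fin.revPerm then 1 else 0 := by
    intro w
    by_cases hw : w = Fin.revPerm
    · rw [if_pos hw, ind_true]
      intro j hj
      refine ⟨hj, ?_⟩
      subst hw
      simp only [Fin.revPerm_apply, Fin.rev_lt_rev, Fin.mk_lt_mk]
      omega
    · rw [if_neg hw, ind_false]
      intro hd
      apply hw
      have hmono : StrictMono (fun x : Fin k => w (Fin.rev x)) := by
        rcases k with _ | k
        · intro x; exact x.elim0
        rw [Fin.strictMono_iff_lt_succ]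
        intro x
        have hx := x.isLt
        obtain ⟨h1, h2⟩ := hd (k - 1 - x) (by omega)
        have e1 : (⟨k - 1 - x + 1, h1⟩ : Fin (k + 1)) = Fin.rev x.castSucc := by
          ext; simp [Fin.val_rev]; omega
        have e2 : (⟨k - 1 - x, Nat.lt_of_succ_lt h1⟩ : Fin (k + 1)) = Fin.rev x.succ := by
          ext; simp [Fin.val_rev]; omega
        rw [e1, e2] at h2
        exact h2
      have hid : (fun x : Fin k => w (Fin.rev x)) = id := by
        have := Subsingleton.elim
          (StrictMono.orderIsoOfSurjective (fun x : Fin k => w (Fin.rev x)) hmono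
            (w.surjective.comp Fin.rev_surjective)) (OrderIso.refl (Fin k))
        funext x
        exact congrArg (fun e : Fin k ≃o Fin k => e x) this
      ext x
      have := congrFun hid (Fin.rev x)
      simp only [Fin.rev_rev, id] at this
      simp [this]
  simp only [h]
  simp

end Pool.Agent.R711.DD
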