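import Mathlib

/-!
Partial fractions of `1/sin` and the power series with coefficients `V n`.
-/

namespace Pool.Agent.R711.DD

open Complex in
lemma csc_hasSum {z : ℂ} (hz : z ∈ integerComplement) :
    HasSum (fun n : ℕ => (-1 : ℂ) ^ (n + 1) * (1 / (z - (n + 1)) + 1 / (z + (n + 1))))
      (Real.pi / sin (Real.pi * z) - 1 / z) := by
  have hz2 : z / 2 ∈ integerComplement := by
    rw [mem_integerComplement_iff] at hz ⊢
    rintro ⟨n, hn⟩
    apply hz
    refine ⟨2 * n, ?_⟩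
    push_cast
    rw [hn]; ring
  have h1 : HasSum (fun n : ℕ => (1 / (z - (n + 1)) + 1 / (z + (n + 1))))
      (Real.pi * cot (Real.pi * z) - 1 / z) := by
    rw [cot_series_rep' hz]
    exact (summable_cotTerm hz).hasSum
  have h2 : HasSum (fun n : ℕ => (1 / (z / 2 - (n + 1)) + 1 / (z / 2 + (n + 1))))
      (Real.pi * cot (Real.pi * (z / 2)) - 1 / (z / 2)) := by
    rw [cot_series_rep' hz2]
    exact (summable_cotTerm hz2).hasSum
  have h3 : HasSum (fun n : ℕ => if n % 2 = 1 then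
      2 * (1 / (z - (n + 1)) + 1 / (z + (n + 1))) else 0)
      (Real.pi * cot (Real.pi * (z / 2)) - 1 / (z / 2)) := by
    have e : Real.pi * cot (Real.pi * (z / 2)) - 1 / (z / 2) =
      0 + (Real.pi * cot (Real.pi * (z / 2)) - 1 / (z / 2)) := by ring
    rw [e]
    apply HasSum.even_add_odd
    · have : (fun k : ℕ => if (2 * k) % 2 = 1 then
        2 * (1 / (z - (((2 * k : ℕ) : ℂ) + 1)) + 1 / (z + (((2 * k : ℕ) : ℂ) + 1))) else 0) = fun _ => 0 := by
        funext k
        rw [if_neg (by omega)]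
      rw [this]
      exact hasSum_zero
    · have : (fun k : ℕ => if (2 * k + 1) % 2 = 1 then
        2 * (1 / (z - (((2 * k + 1 : ℕ) : ℂ) + 1)) + 1 / (z + (((2 * k + 1 : ℕ) : ℂ) + 1))) else 0)
          = (fun n : ℕ => (1 / (z / 2 - (n + 1)) + 1 / (z / 2 + (n + 1)))) := by
        funext k
        rw [if_pos (by omega)]
        push_cast
        have a1 : z - (2 * (k:ℂ) + 1 + 1) ≠ 0 := by
          have := integerComplement_add_ne_zero hz (-(2 * (k:ℤ) + 1 + 1))
          push_cast at this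
          intro h; apply this; rw [← h]; ring
        have a2 : z + (2 * (k:ℂ) + 1 + 1) ≠ 0 := by
          have := integerComplement_add_ne_zero hz ((2 * (k:ℤ) + 1 + 1))
          push_cast at this
          exact this
        have a3 : z / 2 - ((k:ℂ) + 1) ≠ 0 := by
          intro h; apply a1; linear_combination 2 * h
        have a4 : z / 2 + ((k:ℂ) + 1) ≠ 0 := by
          intro h; apply a2; linear_combination 2 * h
        have b1 : z - (2 * (k:ℂ) + 1 + 1) = 2 * (z / 2 - ((k:ℂ) + 1)) := by ring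
        have b2 : z + (2 * (k:ℂ) + 1 + 1) = 2 * (z / 2 + ((k:ℂ) + 1)) := by ring
        rw [b1, b2]
        field_simp
      rw [this]
      exact h2
  have h4 := h3.sub h1
  have hs1 : sin (Real.pi * (z / 2)) ≠ 0 := by
    apply sin_pi_mul_ne_zero hz2
  have hs2 : sin (Real.pi * z) ≠ 0 := sin_pi_mul_ne_zero hz
  have hz0 : z ≠ 0 := integerComplement.ne_zero hz
  have e1 : Real.pi * cot (Real.pi * (z / 2)) - 1 / (z / 2) - (Real.pi * cot (Real.pi * z) - 1 / z)
      = Real.pi / sin (Real.pi * z) - 1 / z := by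
    have e2 : cot (Real.pi * (z / 2)) - cot (Real.pi * z) = 1 / sin (Real.pi * z) := by
      rw [cot, cot]
      have : Real.pi * z = 2 * (Real.pi * (z / 2)) := by ring
      rw [this] at hs2 ⊢
      rw [sin_two_mul] at hs2 ⊢
      have hc : cos (Real.pi * (z / 2)) ≠ 0 := by
        intro h; apply hs2; rw [h]; ring
      rw [cos_two_mul]
      field_simp
      ring
    have e3 : Real.pi * cot (Real.pi * (z / 2)) - Real.pi * cot (Real.pi * z)
        = Real.pi / sin (Real.pi * z) := by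
      rw [← mul_sub, e2]; ring
    have e4 : (1:ℂ) / (z / 2) = 2 * (1 / z) := by field_simp
    rw [e4]
    linear_combination e3
  rw [e1] at h4
  have e5 : (fun n : ℕ => (-1 : ℂ) ^ (n + 1) * (1 / (z - (n + 1)) + 1 / (z + (n + 1))))
      = fun b : ℕ => (if b % 2 = 1 then 2 * (1 / (z - (b + 1)) + 1 / (z + (b + 1))) else 0) -
        (1 / (z - (b + 1)) + 1 / (z + (b + 1))) := by
    funext n
    rcases Nat.even_or_odd n with hn | hn
    · rw [if_neg (by rw [Nat.even_iff] at hn; omega)]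
      rw [hn.add_one.neg_one_pow]; ring
    · rw [if_pos (by rw [Nat.odd_iff] at hn; omega)]
      rw [hn.add_one.neg_one_pow]; ring
  rw [e5]
  exact h4

/-- Real version at `z = (1-t)/3`. -/
lemma csc_real {t : ℝ} (h1 : -1 < t) (h2 : t < 1) :
    HasSum (fun k : ℕ => (-1 : ℝ) ^ k * (1 / (3 * k + 4 - t) - 1 / (3 * k + 2 + t)))
      (1 / (1 - t) - Real.pi / 3 / Real.sin (Real.pi * ((1 - t) / 3))) := by
  have hz : (((1 - t) / 3 : ℝ) : ℂ) ∈ Complex.integerComplement := by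
    rw [Complex.mem_integerComplement_iff]
    rintro ⟨n, hn⟩
    have hn' : (n : ℝ) = (1 - t) / 3 := by exact_mod_cast hn
    have a1 : (0 : ℝ) < n := by rw [hn']; linarith
    have a2 : (n : ℝ) < 1 := by rw [hn']; linarith
    have a3 : 0 < n := by exact_mod_cast a1
    have a4 : n < 1 := by exact_mod_cast a2
    omega
  have h := csc_hasSum hz
  have hr : HasSum (fun n : ℕ => (-1 : ℝ) ^ (n + 1) * (1 / ((1 - t) / 3 - (n + 1)) + 1 / ((1 - t) / 3 + (n + 1))))
      (Real.pi / Real.sin (Real.pi * ((1 - t) / 3)) - 1 / ((1 - t) / 3)) := by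
    rw [← Complex.hasSum_ofReal]
    push_cast
    push_cast at h
    exact h
  have h5 := hr.mul_left (-(1 / 3) : ℝ)
  have e1 : (-(1 / 3) : ℝ) * (Real.pi / Real.sin (Real.pi * ((1 - t) / 3)) - 1 / ((1 - t) / 3))
      = 1 / (1 - t) - Real.pi / 3 / Real.sin (Real.pi * ((1 - t) / 3)) := by
    have : (1 - t) ≠ 0 := by linarith
    have : (1:ℝ) / ((1 - t) / 3) = 3 * (1 / (1 - t)) := by field_simp
    rw [this]; ring
  rw [e1] at h5
  have e2 : (fun k : ℕ => (-1 : ℝ) ^ k * (1 / (3 * k + 4 - t) - 1 / (3 * k + 2 + t)))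
      = fun n : ℕ => (-(1 / 3) : ℝ) * ((-1 : ℝ) ^ (n + 1) *
        (1 / ((1 - t) / 3 - (n + 1)) + 1 / ((1 - t) / 3 + (n + 1)))) := by
    funext k
    have hk : (0 : ℝ) ≤ k := Nat.cast_nonneg k
    have c1 : (1 - t) / 3 - ((k : ℝ) + 1) = - ((3 * k + 2 + t) / 3) := by ring
    have c2 : (1 - t) / 3 + ((k : ℝ) + 1) = (3 * k + 4 - t) / 3 := by ring
    rw [c1, c2, pow_succ]
    have c3 : (3 * (k:ℝ) + 2 + t) ≠ 0 := by linarith
    have c4 : (3 * (k:ℝ) + 4 - t) ≠ 0 := by linarith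
    field_simp
    ring
  rw [e2]
  exact h5

/-- The double coefficients. -/
noncomputable def c (n k : ℕ) : ℝ := 1 / (3 * (k : ℝ) + 4) ^ (n + 1) - (-1) ^ n / (3 * (k : ℝ) + 2) ^ (n + 1)

lemma abs_c_le (n k : ℕ) : |c n k| ≤ 2 / (3 * (k : ℝ) + 2) ^ 2 := by
  have hk : (0 : ℝ) ≤ k := Nat.cast_nonneg k
  unfold c
  rcases n with _ | n
  · have : (1:ℝ) / (3 * (k : ℝ) + 4) ^ (0 + 1) - (-1) ^ 0 / (3 * (k : ℝ) + 2) ^ (0 + 1)
        = - (2 / ((3 * (k : ℝ) + 4) * (3 * (k : ℝ) + 2))) := by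
      have c3 : (3 * (k:ℝ) + 2) ≠ 0 := by linarith
      have c4 : (3 * (k:ℝ) + 4) ≠ 0 := by linarith
      simp only [zero_add, pow_one, pow_zero]
      field_simp
      ring
    rw [this, abs_neg, abs_of_nonneg (by positivity)]
    apply div_le_div_of_nonneg_left (by norm_num) (by positivity)
    nlinarith
  · have h1 : |(1:ℝ) / (3 * (k : ℝ) + 4) ^ (n + 1 + 1)| ≤ 1 / (3 * (k : ℝ) + 2) ^ 2 := by
      rw [abs_of_nonneg (by positivity)]
      apply div_le_div_of_nonneg_left (by norm_num) (by positivity)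
      calc (3 * (k : ℝ) + 2) ^ 2 ≤ (3 * (k : ℝ) + 4) ^ 2 := by gcongr; norm_num
        _ ≤ (3 * (k : ℝ) + 4) ^ (n + 1 + 1) := by
          apply pow_le_pow_right₀ (by linarith) (by omega)
    have h2 : |(-1:ℝ) ^ (n + 1) / (3 * (k : ℝ) + 2) ^ (n + 1 + 1)| ≤ 1 / (3 * (k : ℝ) + 2) ^ 2 := by
      rw [abs_div, abs_pow, abs_neg, abs_one, one_pow, abs_of_nonneg (by positivity)]
      apply div_le_div_of_nonneg_left (by norm_num) (by positivity)
      apply pow_le_pow_right₀ (by linarith) (by omega)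
    calc _ ≤ _ := abs_sub _ _
      _ ≤ 1 / (3 * (k : ℝ) + 2) ^ 2 + 1 / (3 * (k : ℝ) + 2) ^ 2 := add_le_add h1 h2
      _ = _ := by ring

lemma summable_bd : Summable (fun k : ℕ => 2 / (3 * (k : ℝ) + 2) ^ 2) := by
  have h1 : Summable (fun k : ℕ => 2 * (1 / ((k + 1 : ℕ) : ℝ) ^ 2)) := by
    apply Summable.mul_left
    exact (summable_nat_add_iff 1).2 (Real.summable_one_div_nat_pow.2 (by norm_num))
  refine Summable.of_nonneg_of_le (fun k => by positivity) (fun k => ?_) h1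
  have hk : (0 : ℝ) ≤ k := Nat.cast_nonneg k
  rw [mul_one_div]
  apply div_le_div_of_nonneg_left (by norm_num) (by positivity)
  push_cast
  gcongr <;> linarith

/-- The coefficients of `(π/3)/sin(π(1-t)/3)`. -/
noncomputable def V (n : ℕ) : ℝ := 1 - ∑' k : ℕ, (-1 : ℝ) ^ k * c n k

lemma summable_c (n : ℕ) : Summable (fun k : ℕ => (-1 : ℝ) ^ k * c n k) := by
  refine Summable.of_norm_bounded summable_bd (fun k => ?_)
  rw [Real.norm_eq_abs, abs_mul, abs_pow, abs_neg, abs_one, one_pow, one_mul]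
  exact abs_c_le n k

lemma geo1 {t x : ℝ} (hx : |t| < x) :
    HasSum (fun n : ℕ => t ^ n / x ^ (n + 1)) (1 / (x - t)) := by
  have hx0 : 0 < x := lt_of_le_of_lt (abs_nonneg t) hx
  have h1 : |t / x| < 1 := by
    rw [abs_div, abs_of_pos hx0, div_lt_one hx0]; exact hx
  have h2 := (hasSum_geometric_of_abs_lt_one h1).mul_left (1 / x)
  have h3 : x - t ≠ 0 := by
    have := le_abs_self t
    linarith
  have e : 1 / x * (1 - t / x)⁻¹ = 1 / (x - t) := by
    have : 1 - t / x = (x - t) / x := by field_simp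
    rw [this]; field_simp
  rw [e] at h2
  have e2 : (fun n : ℕ => t ^ n / x ^ (n + 1)) = fun n : ℕ => 1 / x * (t / x) ^ n := by
    funext n
    rw [div_pow, pow_succ]; field_simp
  rw [e2]; exact h2

theorem V_hasSum {t : ℝ} (ht : |t| < 1) :
    HasSum (fun n : ℕ => V n * t ^ n) (Real.pi / 3 / Real.sin (Real.pi * ((1 - t) / 3))) := by
  obtain ⟨h1, h2⟩ := abs_lt.1 ht
  -- the double family
  set F : ℕ × ℕ → ℝ := fun x => (-1 : ℝ) ^ x.2 * c x.1 x.2 * t ^ x.1 with hF
  have hsum : Summable F := by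
    have g1 : Summable (fun x : ℕ × ℕ => |t| ^ x.1 * (2 / (3 * (x.2 : ℝ) + 2) ^ 2)) := by
      apply Summable.mul_of_nonneg (summable_geometric_of_lt_one (abs_nonneg t) ht) summable_bd
      · intro n; positivity
      · intro n; positivity
    refine Summable.of_norm_bounded g1 (fun x => ?_)
    rw [hF, Real.norm_eq_abs, abs_mul, abs_mul, abs_pow, abs_neg, abs_one, one_pow, one_mul,
      abs_pow, mul_comm]
    gcongr
    exact abs_c_le _ _
  have hA : HasSum (fun n : ℕ => ∑' k, F (n, k)) (∑' x, F x) :=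
    hsum.hasSum.prod_fiberwise (fun n => (hsum.prod_factor n).hasSum)
  have hsum2 : Summable (fun x : ℕ × ℕ => F x.swap) := hsum.prod_symm
  have hB0 : HasSum (fun x : ℕ × ℕ => F x.swap) (∑' x, F x) :=
    (Equiv.prodComm ℕ ℕ).hasSum_iff.2 hsum.hasSum
  have hB : HasSum (fun k : ℕ => ∑' n, F (n, k)) (∑' x, F x) :=
    hB0.prod_fiberwise (fun k => (hsum2.prod_factor k).hasSum)
  have hin : ∀ k : ℕ, ∑' n, F (n, k)
      = (-1 : ℝ) ^ k * (1 / (3 * k + 4 - t) - 1 / (3 * k + 2 + t)) := by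
    intro k
    have hk : (0 : ℝ) ≤ k := Nat.cast_nonneg k
    have g1 := geo1 (t := t) (x := 3 * k + 4) (by linarith)
    have g2 := geo1 (t := -t) (x := 3 * k + 2) (by rw [abs_neg]; linarith)
    have g3 := (g1.sub g2).mul_left ((-1 : ℝ) ^ k)
    rw [show (3 * (k:ℝ) + 2 - -t) = 3 * k + 2 + t by ring] at g3
    rw [← g3.tsum_eq]
    apply tsum_congr
    intro n
    simp only [hF, c]
    rw [show (-t) ^ n = (-1) ^ n * t ^ n by rw [← mul_pow]; ring]
    ring
  simp only [hin] at hB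
  have hC := hB.unique (csc_real h1 h2)
  rw [hC] at hA
  have hG : HasSum (fun n : ℕ => t ^ n) (1 - t)⁻¹ := hasSum_geometric_of_abs_lt_one ht
  have hD := hG.sub hA
  have e1 : (1 - t)⁻¹ - (1 / (1 - t) - Real.pi / 3 / Real.sin (Real.pi * ((1 - t) / 3)))
      = Real.pi / 3 / Real.sin (Real.pi * ((1 - t) / 3)) := by ring
  rw [e1] at hD
  have e2 : (fun n : ℕ => V n * t ^ n) = fun n : ℕ => t ^ n - ∑' k, F (n, k) := by
    funext n
    simp only [hF]
    rw [tsum_mul_right]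
    unfold V
    ring
  rw [e2]
  exact hD

lemma abs_V_le : ∃ C : ℝ, ∀ n, |V n| ≤ C := by
  refine ⟨1 + ∑' k : ℕ, 2 / (3 * (k : ℝ) + 2) ^ 2, fun n => ?_⟩
  unfold V
  calc _ ≤ |(1:ℝ)| + |∑' k : ℕ, (-1 : ℝ) ^ k * c n k| := abs_sub _ _
    _ ≤ _ := by
      rw [abs_one]
      gcongr
      rw [← Real.norm_eq_abs]
      refine tsum_of_norm_bounded summable_bd.hasSum (fun k => ?_)
      rw [Real.norm_eq_abs, abs_mul, abs_pow, abs_neg, abs_one, one_pow, one_mul]
      exact abs_c_le n k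

end Pool.Agent.R711.DD
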