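import Pool.Agent.R711.DD.Comb

/-!
The pointwise inclusion-exclusion identities and their averages.
-/

namespace Pool.Agent.R711.DD

open Finset Equiv

/-- Coefficients of `1/(1+x+x^2)`. -/
def pz (n : ℕ) : ℤ := if n % 3 = 0 then 1 else if n % 3 = 1 then -1 else 0

/-- Real version of `pz`. -/
def p (n : ℕ) : ℝ := (pz n : ℝ)

lemma p_zero : p 0 = 1 := by simp [p, pz]

lemma p_one : p 1 = -1 := by simp [p, pz]

lemma pz_add_two (n : ℕ) : pz (n + 2) = - pz (n + 1) - pz n := by
  unfold pz
  have : n % 3 = 0 ∨ n % 3 = 1 ∨ n % 3 = 2 := by omega
  rcases this with h | h | h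
  · rw [show (n + 2) % 3 = 2 by omega, show (n + 1) % 3 = 1 by omega, h]; norm_num
  · rw [show (n + 2) % 3 = 0 by omega, show (n + 1) % 3 = 2 by omega, h]; norm_num
  · rw [show (n + 2) % 3 = 1 by omega, show (n + 1) % 3 = 0 by omega, h]; norm_num

lemma p_add_two (n : ℕ) : p (n + 2) = - p (n + 1) - p n := by
  unfold p
  rw [pz_add_two]; push_cast; ring

/-- First inclusion-exclusion sum. -/
noncomputable def T (n : ℕ) (d : ℕ → Prop) : ℝ :=
  ∑ k ∈ range (n + 1), p k * (ind (dec k d) * ind (noDD (shift k d)))

/-- Second inclusion-exclusion sum. -/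
noncomputable def Sg (n : ℕ) (d : ℕ → Prop) : ℝ :=
  ∑ k ∈ range n, p k * (ind (dec (k + 1) d) * ind (noDD (shift (k + 1) d)))

lemma shift_zero (d : ℕ → Prop) : shift 0 d = d := by
  funext j; simp [shift]

lemma shift_succ (k : ℕ) (d : ℕ → Prop) : shift (k + 1) d = shift k (shift 1 d) := by
  funext j
  unfold shift
  rw [show k + 1 + j = 1 + (k + j) by ring]

lemma dec_zero (d : ℕ → Prop) : dec 0 d := by intro j hj; omega

lemma dec_one (d : ℕ → Prop) : dec 1 d := by intro j hj; omega

lemma dec_two (k : ℕ) (d : ℕ → Prop) : dec (k + 2) d ↔ d 0 ∧ dec (k + 1) (shift 1 d) := by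
  constructor
  · intro h
    refine ⟨h 0 (by omega), fun j hj => ?_⟩
    exact h (1 + j) (by omega)
  · rintro ⟨h0, h⟩ j hj
    rcases j with _ | j
    · exact h0
    · have := h j (by omega)
      unfold shift at this
      rwa [show 1 + j = j + 1 by ring] at this

lemma noDD_iff (d : ℕ → Prop) : noDD d ↔ ¬ (d 0 ∧ d 1) ∧ noDD (shift 1 d) := by
  constructor
  · intro h
    refine ⟨h 0, fun j => ?_⟩
    have := h (1 + j)
    unfold shift
    rwa [show 1 + (j + 1) = 1 + j + 1 by ring]
  · rintro ⟨h0, h⟩ j
    rcases j with _ | j
    · exact h0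
    · have := h j
      unfold shift at this
      rwa [show 1 + (j + 1) = j + 1 + 1 by ring, show 1 + j = j + 1 by ring] at this

lemma ok_shift {n : ℕ} {d : ℕ → Prop} (h : Ok (n + 1) d) : Ok n (shift 1 d) := by
  intro j hj
  have := h _ hj
  omega

lemma ident (n : ℕ) : ∀ d : ℕ → Prop, Ok n d →
    (T n d = if n = 0 then 1 else 0) ∧
      (0 < n → Sg n d = ind (noDD d) * ind (¬ d 0)) := by
  induction n with
  | zero =>
    intro d hd
    refine ⟨?_, fun h => absurd h (lt_irrefl _)⟩
    have h1 : noDD d := by
      intro j hj
      have := hd j hj.1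
      omega
    simp [T, p_zero, shift_zero, ind_true h1, ind_true (dec_zero d)]
  | succ n ih =>
    intro d hd
    obtain ⟨ihT, ihS⟩ := ih (shift 1 d) (ok_shift hd)
    by_cases h0 : d 0
    · -- first gap is a descent
      have hn : 0 < n := by have := hd 0 h0; omega
      have hdec : ∀ k, ind (dec (k + 1) d) = ind (dec k (shift 1 d)) := by
        intro k
        rcases k with _ | k
        · rw [ind_true (dec_one d), ind_true (dec_zero _)]
        · by_cases h : dec (k + 1) (shift 1 d)
          · rw [ind_true h, ind_true ((dec_two k d).2 ⟨h0, h⟩)]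
          · rw [ind_false h, ind_false (fun hh => h ((dec_two k d).1 hh).2)]
      rw [if_neg (by omega)] at ihT
      have ihS' := ihS hn
      have hS : Sg (n + 1) d = 0 := by
        unfold Sg
        rw [← ihT]
        unfold T
        apply Finset.sum_congr rfl
        intro k _
        rw [hdec, shift_succ k d]
      refine ⟨?_, fun _ => ?_⟩
      · rw [if_neg (by omega)]
        unfold T
        rw [Finset.sum_range_succ']
        have e1 : ∑ k ∈ range (n + 1), p (k + 1) * (ind (dec (k + 1) d) * ind (noDD (shift (k + 1) d)))
            = - T n (shift 1 d) - Sg n (shift 1 d) := by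
          unfold T Sg
          have f1 : ∀ k, p (k + 1) * (ind (dec (k + 1) d) * ind (noDD (shift (k + 1) d)))
              = p (k + 1) * (ind (dec k (shift 1 d)) * ind (noDD (shift k (shift 1 d)))) := by
            intro k
            rw [hdec, shift_succ k d]
          rw [Finset.sum_congr rfl (fun k _ => f1 k)]
          rw [Finset.sum_range_succ', Finset.sum_range_succ' (n := n)]
          rw [neg_add, add_sub_right_comm]
          congr 1
          · rw [← Finset.sum_neg_distrib, ← Finset.sum_sub_distrib]
            apply Finset.sum_congr rfl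
            intro k _
            rw [p_add_two]
            ring
          · rw [p_zero, p_one]; ring
        rw [e1, ihT, ihS']
        simp only [shift_zero, p_zero, ind_true (dec_zero d)]
        have : ind (noDD d) = ind (noDD (shift 1 d)) * ind (¬ shift 1 d 0) := by
          rw [← ind_and]
          congr 1
          apply propext
          rw [noDD_iff d]
          have : shift 1 d 0 = d 1 := rfl
          rw [this]
          tauto
        rw [this]; ring
      · rw [hS, ind_false (P := ¬ d 0) (by simpa using h0)]
        ring
    · have hdec : ∀ k, ind (dec (k + 2) d) = 0 := by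
        intro k
        apply ind_false
        intro h
        exact h0 ((dec_two k d).1 h).1
      have hno : ind (noDD d) = ind (noDD (shift 1 d)) := by
        congr 1
        apply propext
        rw [noDD_iff d]
        tauto
      have hS : Sg (n + 1) d = ind (noDD d) := by
        unfold Sg
        rw [Finset.sum_range_succ']
        rw [Finset.sum_eq_zero]
        · simp only [p_zero, zero_add, ind_true (dec_one d), hno]
          ring
        · intro k _
          rw [hdec]; ring
      refine ⟨?_, fun _ => ?_⟩
      · rw [if_neg (by omega)]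
        unfold T
        rw [Finset.sum_range_succ', Finset.sum_range_succ', Finset.sum_eq_zero]
        · simp only [p_zero, zero_add, p_one, ind_true (dec_one d), ind_true (dec_zero d), shift_zero, hno]
          ring
        · intro k _
          rw [hdec]; ring
      · rw [hS, ind_true h0]
        ring

lemma E_dec_noDD (k m : ℕ) :
    E (k + m) (fun d => ind (dec k d) * ind (noDD (shift k d))) = 1 / (k.factorial : ℝ) * u m := by
  rw [← E_dec k]
  unfold u
  rw [← E_mul k m (fun d => ind (dec k d)) (fun d => ind (noDD d))]
  apply E_congr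
  intro d _
  congr 2
  apply propext
  unfold dec trunc
  constructor
  · intro h j hj
    exact ⟨hj, h j hj⟩
  · intro h j hj
    exact (h j hj).2

/-- Recursion for the normalized number of permutations without double descents. -/
theorem A1 (n : ℕ) :
    ∑ k ∈ range (n + 1), p k * (1 / (k.factorial : ℝ)) * u (n - k) = if n = 0 then 1 else 0 := by
  have h1 : E n (fun d => T n d) = if n = 0 then 1 else 0 := by
    rw [E_congr n (G := fun _ => if n = 0 then (1:ℝ) else 0) (fun d hd => (ident n d hd).1)]
    unfold E S
    simp only [Finset.sum_const, Finset.card_univ, Fintype.card_perm, Fintype.card_fin,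
      nsmul_eq_mul]
    have : (n.factorial : ℝ) ≠ 0 := by positivity
    field_simp
  rw [← h1]
  unfold T
  rw [E_sum]
  apply Finset.sum_congr rfl
  intro k hk
  rw [E_const_mul]
  have hk' : k ≤ n := by simpa [Nat.lt_succ_iff] using hk
  obtain ⟨m, rfl⟩ := Nat.exists_eq_add_of_le hk'
  rw [E_dec_noDD, Nat.add_sub_cancel_left]
  ring

/-- Exactly one double descent, the flags `I` and `I+1`. -/
def single (I : ℕ) (d : ℕ → Prop) : Prop := ∀ j, (d j ∧ d (j + 1)) ↔ j = I

lemma E_three (k l m : ℕ) :
    E (k + (l + m)) (fun d => ind (noDD (trunc k d)) *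
      (ind (dec l (shift k d)) * ind (noDD (shift l (shift k d)))))
      = u k * (1 / (l.factorial : ℝ) * u m) := by
  rw [← E_dec_noDD l m]
  unfold u
  exact E_mul k (l + m) (fun d => ind (noDD d))
    (fun d => ind (dec l d) * ind (noDD (shift l d)))

/-- The normalized number of permutations with exactly one double descent. -/
theorem A2 (I M : ℕ) (hM : 0 < M) :
    E (I + 2 + M) (fun d => ind (single I d)) =
      ∑ a ∈ range (I + 1), ∑ b ∈ range M,
        p a * p b * (u (I - a) * (1 / ((a + b + 3).factorial : ℝ) * u (M - 1 - b))) := by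
  have key : ∀ d, Ok (I + 2 + M) d → ind (single I d) =
      ∑ a ∈ range (I + 1), ∑ b ∈ range M, p a * p b *
        (ind (noDD (trunc (I - a) d)) * (ind (dec (a + b + 3) (shift (I - a) d)) *
          ind (noDD (shift (a + b + 3) (shift (I - a) d))))) := by
    intro d hd
    set eL : ℕ → Prop := fun x => x + 1 ≤ I ∧ d (I - 1 - x) with heL
    set eR : ℕ → Prop := fun x => d (I + 2 + x) with heR
    have okL : Ok (I + 1) eL := by
      intro j hj
      have := hj.1
      omega
    have okR : Ok M eR := by
      intro j hj
      have := hd _ hj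
      omega
    have h1 : ind (single I d) = ind (d I ∧ d (I + 1)) * (Sg (I + 1) eL * Sg M eR) := by
      rw [(ident (I + 1) eL okL).2 (by omega), (ident M eR okR).2 hM, ← ind_and, ← ind_and,
        ← ind_and, ← ind_and]
      congr 1
      apply propext
      constructor
      · intro h
        refine ⟨(h I).2 rfl, ⟨fun j => ?_, ?_⟩, ⟨fun j => ?_, ?_⟩⟩
        · rintro ⟨h1, h2⟩
          have h3 := (h (I - 1 - (j + 1))).1 ⟨h2.2, by
            have := h1.2
            have := h2.1
            rwa [show I - 1 - (j + 1) + 1 = I - 1 - j by omega]⟩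
          have := h2.1
          omega
        · rintro ⟨h1, h2⟩
          have h3 := (h (I - 1)).1 ⟨h2, by
            rw [show I - 1 + 1 = I by omega]
            exact ((h I).2 rfl).1⟩
          omega
        · rintro ⟨h1, h2⟩
          have h3 := (h (I + 2 + j)).1 ⟨h1, h2⟩
          omega
        · intro h1
          have h3 := (h (I + 1)).1 ⟨((h I).2 rfl).2, h1⟩
          omega
      · rintro ⟨⟨h1, h2⟩, ⟨h3, h4⟩, ⟨h5, h6⟩⟩ j
        constructor
        · rintro ⟨g1, g2⟩
          by_contra hne
          rcases lt_or_gt_of_ne hne with hlt | hgt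
          · by_cases hj : j + 1 = I
            · apply h4
              refine ⟨by omega, ?_⟩
              rwa [show I - 1 - 0 = j by omega]
            · apply h3 (I - 2 - j)
              refine ⟨⟨by omega, ?_⟩, ⟨by omega, ?_⟩⟩
              · rwa [show I - 1 - (I - 2 - j) = j + 1 by omega]
              · rwa [show I - 1 - (I - 2 - j + 1) = j by omega]
          · by_cases hj : j = I + 1
            · apply h6
              subst hj
              exact g2
            · apply h5 (j - I - 2)
              refine ⟨?_, ?_⟩
              · show d (I + 2 + (j - I - 2))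
                rwa [show I + 2 + (j - I - 2) = j by omega]
              · show d (I + 2 + (j - I - 2 + 1))
                rwa [show I + 2 + (j - I - 2 + 1) = j + 1 by omega]
        · rintro rfl
          exact ⟨h1, h2⟩
    rw [h1]
    unfold Sg
    rw [Finset.sum_mul_sum, Finset.mul_sum]
    apply Finset.sum_congr rfl
    intro a ha
    rw [Finset.mul_sum]
    apply Finset.sum_congr rfl
    intro b _
    have ha' : a ≤ I := by simpa [Nat.lt_succ_iff] using ha
    have e1 : ind (noDD (shift (a + 1) eL)) = ind (noDD (trunc (I - a) d)) := by
      congr 1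
      apply propext
      constructor
      · rintro h j ⟨⟨g1, g2⟩, ⟨g3, g4⟩⟩
        apply h (I - 3 - a - j)
        refine ⟨⟨by omega, ?_⟩, ⟨by omega, ?_⟩⟩
        · rwa [show I - 1 - (a + 1 + (I - 3 - a - j)) = j + 1 by omega]
        · rwa [show I - 1 - (a + 1 + (I - 3 - a - j + 1)) = j by omega]
      · rintro h j ⟨⟨g1, g2⟩, ⟨g3, g4⟩⟩
        apply h (I - 3 - a - j)
        refine ⟨⟨by omega, ?_⟩, ⟨by omega, ?_⟩⟩
        · rwa [show I - 1 - (a + 1 + (j + 1)) = I - 3 - a - j by omega] at g4
        · rwa [show I - 1 - (a + 1 + j) = I - 3 - a - j + 1 by omega] at g2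
    have e2 : ind (noDD (shift (b + 1) eR)) = ind (noDD (shift (a + b + 3) (shift (I - a) d))) := by
      congr 1
      congr 1
      funext j
      show d (I + 2 + (b + 1 + j)) = d (I - a + (a + b + 3 + j))
      congr 1
      omega
    have e3 : ind (d I ∧ d (I + 1)) * (ind (dec (a + 1) eL) * ind (dec (b + 1) eR))
        = ind (dec (a + b + 3) (shift (I - a) d)) := by
      rw [← ind_and, ← ind_and]
      congr 1
      apply propext
      constructor
      · rintro ⟨⟨g1, g2⟩, g3, g4⟩ j hj
        show d (I - a + j)
        by_cases c1 : j < a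
        · have := (g3 (a - 1 - j) (by omega)).2
          rwa [show I - 1 - (a - 1 - j) = I - a + j by omega] at this
        · by_cases c2 : j = a
          · rwa [show I - a + j = I by omega]
          · by_cases c3 : j = a + 1
            · rwa [show I - a + j = I + 1 by omega]
            · have := g4 (j - a - 2) (by omega)
              change d (I + 2 + (j - a - 2)) at this
              rwa [show I + 2 + (j - a - 2) = I - a + j by omega] at this
      · intro h
        refine ⟨⟨?_, ?_⟩, ?_, ?_⟩
        · have := h a (by omega)
          change d (I - a + a) at this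
          rwa [show I - a + a = I by omega] at this
        · have := h (a + 1) (by omega)
          change d (I - a + (a + 1)) at this
          rwa [show I - a + (a + 1) = I + 1 by omega] at this
        · intro j hj
          refine ⟨by omega, ?_⟩
          have := h (a - 1 - j) (by omega)
          change d (I - a + (a - 1 - j)) at this
          rwa [show I - a + (a - 1 - j) = I - 1 - j by omega] at this
        · intro j hj
          have := h (a + 2 + j) (by omega)
          change d (I - a + (a + 2 + j)) at this
          show d (I + 2 + j)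
          rwa [show I - a + (a + 2 + j) = I + 2 + j by omega] at this
    rw [← e3, ← e1, ← e2]
    ring
  rw [E_congr _ key, E_sum]
  apply Finset.sum_congr rfl
  intro a ha
  rw [E_sum]
  apply Finset.sum_congr rfl
  intro b hb
  rw [E_const_mul]
  congr 1
  have ha' : a ≤ I := by simpa [Nat.lt_succ_iff] using ha
  have hb' : b < M := by simpa using hb
  rw [← E_three (I - a) (a + b + 3) (M - 1 - b)]
  congr 1
  omega

end Pool.Agent.R711.DD
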