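import Pool.Agent.R711.DD.Csc
import Pool.Agent.R711.DD.Ident

/-!
The exact formula for the normalized numbers `u n` and the resulting bounds.
-/

namespace Pool.Agent.R711.DD

open Finset

/-- The error term in `V n`. -/
noncomputable def nu (n : ℕ) : ℝ := V n - 1 - 1 / 2 * (-1 / 2) ^ n

lemma sum_sq_le (N : ℕ) : ∑ k ∈ range N, 1 / (3 * (k : ℝ) + 4) ^ 2 ≤
    1 / 3 * (2 / 5 - 1 / (3 * (N : ℝ) + 5 / 2)) := by
  induction N with
  | zero => norm_num
  | succ N ih =>
    rw [Finset.sum_range_succ]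
    have hN : (0 : ℝ) ≤ N := Nat.cast_nonneg N
    have h1 : 1 / (3 * (N : ℝ) + 4) ^ 2 ≤ 1 / 3 * (1 / (3 * (N : ℝ) + 5 / 2) - 1 / (3 * (N : ℝ) + 11 / 2)) := by
      have e : 1 / 3 * (1 / (3 * (N : ℝ) + 5 / 2) - 1 / (3 * (N : ℝ) + 11 / 2))
          = 1 / ((3 * (N : ℝ) + 5 / 2) * (3 * (N : ℝ) + 11 / 2)) := by
        field_simp
        ring
      rw [e]
      apply div_le_div_of_nonneg_left (by norm_num) (by positivity)
      nlinarith
    push_cast
    rw [show 3 * ((N : ℝ) + 1) + 5 / 2 = 3 * (N : ℝ) + 11 / 2 by ring]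
    linarith

lemma summable_sq : Summable (fun k : ℕ => 1 / (3 * (k : ℝ) + 4) ^ 2) := by
  refine summable_of_sum_range_le (c := 2 / 15) (fun k => by positivity) (fun N => ?_)
  have := sum_sq_le N
  have h2 : 0 ≤ 1 / (3 * (N : ℝ) + 5 / 2) := by positivity
  linarith

lemma tsum_sq_le : ∑' k : ℕ, 1 / (3 * (k : ℝ) + 4) ^ 2 ≤ 2 / 15 := by
  refine Real.tsum_le_of_sum_range_le (fun k => by positivity) (fun N => ?_)
  have := sum_sq_le N
  have h2 : 0 ≤ 1 / (3 * (N : ℝ) + 5 / 2) := by positivity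
  linarith

lemma alt_bd (m : ℕ) (x : ℝ) (hx : 4 ≤ x) :
    Summable (fun k : ℕ => (-1 : ℝ) ^ k * (1 / (3 * (k : ℝ) + x) ^ (m + 2))) ∧
    |∑' k : ℕ, (-1 : ℝ) ^ k * (1 / (3 * (k : ℝ) + x) ^ (m + 2))| ≤ (1 / 4) ^ m * (2 / 15) := by
  have h1 : ∀ k : ℕ, ‖(-1 : ℝ) ^ k * (1 / (3 * (k : ℝ) + x) ^ (m + 2))‖
      ≤ (1 / 4) ^ m * (1 / (3 * (k : ℝ) + 4) ^ 2) := by
    intro k
    have hk : (0 : ℝ) ≤ k := Nat.cast_nonneg k
    have hx0 : 0 < 3 * (k : ℝ) + x := by linarith
    rw [Real.norm_eq_abs, abs_mul, abs_pow, abs_neg, abs_one, one_pow, one_mul,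
      abs_of_nonneg (by positivity)]
    rw [pow_add, one_div_pow, ← one_div_mul_one_div]
    gcongr
    linarith
  have hs : Summable (fun k : ℕ => (1 / 4 : ℝ) ^ m * (1 / (3 * (k : ℝ) + 4) ^ 2)) :=
    summable_sq.mul_left _
  refine ⟨Summable.of_norm_bounded hs h1, ?_⟩
  rw [← Real.norm_eq_abs]
  refine (tsum_of_norm_bounded hs.hasSum h1).trans ?_
  rw [tsum_mul_left]
  gcongr
  exact tsum_sq_le

lemma nu_succ (m : ℕ) : |nu (m + 1)| ≤ 16 / 15 * (1 / 4) ^ (m + 1) := by
  obtain ⟨s1, b1⟩ := alt_bd m 4 le_rfl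
  obtain ⟨s2, b2⟩ := alt_bd m 5 (by norm_num)
  set A := ∑' k : ℕ, (-1 : ℝ) ^ k * (1 / (3 * (k : ℝ) + 4) ^ (m + 2)) with hA
  set B := ∑' k : ℕ, (-1 : ℝ) ^ k * (1 / (3 * (k : ℝ) + 5) ^ (m + 2)) with hB
  have s3 : Summable (fun k : ℕ => (-1 : ℝ) ^ k * (1 / (3 * (k : ℝ) + 2) ^ (m + 2))) := by
    rw [← summable_nat_add_iff 1]
    have : (fun k : ℕ => (-1 : ℝ) ^ (k + 1) * (1 / (3 * ((k + 1 : ℕ) : ℝ) + 2) ^ (m + 2)))
        = fun k : ℕ => (-1) * ((-1 : ℝ) ^ k * (1 / (3 * (k : ℝ) + 5) ^ (m + 2))) := by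
      funext k
      push_cast
      rw [show 3 * ((k : ℝ) + 1) + 2 = 3 * k + 5 by ring]
      ring
    rw [this]
    exact s2.mul_left _
  have hB2 : ∑' k : ℕ, (-1 : ℝ) ^ k * (1 / (3 * (k : ℝ) + 2) ^ (m + 2))
      = 1 / 2 ^ (m + 2) - B := by
    rw [s3.tsum_eq_zero_add]
    have : (fun k : ℕ => (-1 : ℝ) ^ (k + 1) * (1 / (3 * ((k + 1 : ℕ) : ℝ) + 2) ^ (m + 2)))
        = fun k : ℕ => (-1) * ((-1 : ℝ) ^ k * (1 / (3 * (k : ℝ) + 5) ^ (m + 2))) := by
      funext k
      push_cast
      rw [show 3 * ((k : ℝ) + 1) + 2 = 3 * k + 5 by ring]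
      ring
    rw [this, tsum_mul_left, ← hB]
    norm_num
    ring
  have hV : V (m + 1) = 1 - (A - (-1) ^ (m + 1) * (1 / 2 ^ (m + 2) - B)) := by
    unfold V
    rw [← hB2, hA, ← tsum_mul_left, ← Summable.tsum_sub s1 (s3.mul_left _)]
    congr 1
    apply tsum_congr
    intro k
    unfold c
    ring
  have hnu : nu (m + 1) = - A - (-1) ^ (m + 1) * B := by
    unfold nu
    rw [hV]
    have : (1:ℝ) / 2 * (-1 / 2) ^ (m + 1) = (-1) ^ (m + 1) * (1 / 2 ^ (m + 2)) := by
      rw [div_pow]; field_simp; ring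
    rw [this]; ring
  rw [hnu]
  have h3 : |(-1 : ℝ) ^ (m + 1) * B| = |B| := by
    rw [abs_mul, abs_pow, abs_neg, abs_one, one_pow, one_mul]
  calc _ ≤ |-A| + |(-1 : ℝ) ^ (m + 1) * B| := abs_sub _ _
    _ = |A| + |B| := by rw [abs_neg, h3]
    _ ≤ (1 / 4) ^ m * (2 / 15) + (1 / 4) ^ m * (2 / 15) := add_le_add b1 b2
    _ = _ := by rw [pow_succ]; ring

/-- The smallest pole. -/
noncomputable def x0 : ℝ := 2 * Real.pi / (3 * Real.sqrt 3)

lemma sqrt3_bds : 1.73205 < Real.sqrt 3 ∧ Real.sqrt 3 < 1.732051 := by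
  constructor
  · apply Real.lt_sqrt_of_sq_lt; norm_num
  · rw [Real.sqrt_lt' (by norm_num)]; norm_num

lemma x0_bds : 1.2091 < x0 ∧ x0 < 1.2093 := by
  obtain ⟨h1, h2⟩ := sqrt3_bds
  have h3 := Real.pi_gt_d4
  have h4 := Real.pi_lt_d4
  have h5 : 0 < Real.sqrt 3 := by linarith
  unfold x0
  constructor
  · rw [lt_div_iff₀ (by positivity)]; nlinarith
  · rw [div_lt_iff₀ (by positivity)]; nlinarith

lemma x0_pos : 0 < x0 := by have := x0_bds.1; linarith

lemma sqrt3_x0 : Real.sqrt 3 * x0 = 2 * Real.pi / 3 := by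
  have h5 : Real.sqrt 3 ≠ 0 := by positivity
  unfold x0
  field_simp

lemma V_zero : V 0 = x0 := by
  have h := V_hasSum (t := 0) (by norm_num)
  have h2 := h.unique (hasSum_single 0 (fun n hn => by simp [hn]))
  have h3 : Real.sin (Real.pi * ((1 - 0) / 3)) = Real.sqrt 3 / 2 := by
    rw [show Real.pi * ((1 - 0) / 3) = Real.pi / 3 by ring, Real.sin_pi_div_three]
  rw [h3] at h2
  simp only [pow_zero, mul_one] at h2
  rw [← h2]
  unfold x0
  have h5 : Real.sqrt 3 ≠ 0 := by positivity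
  field_simp

/-! ### Power series -/

open PowerSeries in
/-- Uniqueness of the coefficients of a power series that vanishes near `0`. -/
lemma uniq (e : ℕ → ℝ) (hs : ∀ t : ℝ, |t| < 1 → Summable (fun n => |e n * t ^ n|))
    (h : ∀ t : ℝ, |t| < 1 → HasSum (fun n => e n * t ^ n) 0) : ∀ n, e n = 0 := by
  have h1 : HasFPowerSeriesOnBall (fun _ : ℝ => (0 : ℝ)) (FormalMultilinearSeries.ofScalars ℝ e) 0
      (1 / 2 : NNReal) := by
    refine ⟨?_, by simp, ?_⟩
    · apply FormalMultilinearSeries.le_radius_of_summable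
      have := hs (1 / 2) (by rw [abs_of_pos] <;> norm_num)
      refine this.congr (fun n => ?_)
      rw [FormalMultilinearSeries.ofScalars_norm]
      rw [abs_mul, Real.norm_eq_abs, abs_pow, abs_of_pos (by norm_num : (0 : ℝ) < 1 / 2)]
      simp
    · intro y hy
      have hy' : |y| < 1 := by
        simp only [Metric.mem_eball, edist_zero_right] at hy
        have : (‖y‖₊ : ENNReal) < ((1 / 2 : NNReal) : ENNReal) := hy
        rw [ENNReal.coe_lt_coe] at this
        have h3 : (‖y‖₊ : ℝ) < ((1 / 2 : NNReal) : ℝ) := by exact_mod_cast this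
        simp only [coe_nnnorm, Real.norm_eq_abs] at h3
        norm_num at h3
        linarith
      have e1 : (fun n : ℕ => (FormalMultilinearSeries.ofScalars ℝ e n) (fun _ => y))
          = fun n => e n * y ^ n := by
        funext n
        rw [FormalMultilinearSeries.ofScalars_apply_eq]
        simp [smul_eq_mul]
      have := h y hy'
      rw [← e1] at this
      exact this
  have h2 := h1.hasFPowerSeriesAt
  have h3 : FormalMultilinearSeries.ofScalars ℝ e = 0 := HasFPowerSeriesAt.eq_zero h2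
  intro n
  have h4 := (FormalMultilinearSeries.ofScalars_series_eq_zero ℝ).1 h3
  exact congrFun h4 n

open PowerSeries in
/-- Cauchy products. -/
lemma cauchy {a b : ℕ → ℝ} {t A B : ℝ} (ha : Summable (fun n => |a n * t ^ n|))
    (hb : Summable (fun n => |b n * t ^ n|)) (hA : HasSum (fun n => a n * t ^ n) A)
    (hB : HasSum (fun n => b n * t ^ n) B) :
    Summable (fun n => |coeff n (mk a * mk b) * t ^ n|) ∧
      HasSum (fun n => coeff n (mk a * mk b) * t ^ n) (A * B) := by
  have e : ∀ n, coeff n (mk a * mk b) * t ^ n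
      = ∑ kl ∈ antidiagonal n, (a kl.1 * t ^ kl.1) * (b kl.2 * t ^ kl.2) := by
    intro n
    rw [PowerSeries.coeff_mul, Finset.sum_mul]
    apply Finset.sum_congr rfl
    intro kl hkl
    rw [HasAntidiagonal.mem_antidiagonal] at hkl
    rw [coeff_mk, coeff_mk, ← hkl, pow_add]
    ring
  have h1 := summable_norm_sum_mul_antidiagonal_of_summable_norm (f := fun n => a n * t ^ n)
    (g := fun n => b n * t ^ n) (by simpa [Real.norm_eq_abs] using ha)
    (by simpa [Real.norm_eq_abs] using hb)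
  have h2 := tsum_mul_tsum_eq_tsum_sum_antidiagonal_of_summable_norm (f := fun n => a n * t ^ n)
    (g := fun n => b n * t ^ n) (by simpa [Real.norm_eq_abs] using ha)
    (by simpa [Real.norm_eq_abs] using hb)
  constructor
  · simp only [e]
    simpa [Real.norm_eq_abs] using h1
  · simp only [e]
    rw [hA.tsum_eq, hB.tsum_eq] at h2
    rw [h2]
    exact h1.of_norm.hasSum

/-- Coefficients of `exp(x0 t/2)`. -/
noncomputable def ex (n : ℕ) : ℝ := (x0 / 2) ^ n / n.factorial

/-- Coefficients of the reciprocal of the generating function, rescaled. -/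
noncomputable def ps (n : ℕ) : ℝ := p n * x0 ^ n / n.factorial

lemma ex_sum (t : ℝ) : Summable (fun n => |ex n * t ^ n|) ∧
    HasSum (fun n => ex n * t ^ n) (Real.exp (x0 / 2 * t)) := by
  have e : ∀ n, ex n * t ^ n = (x0 / 2 * t) ^ n / n.factorial := by
    intro n; unfold ex; rw [mul_pow]; ring
  simp only [e]
  constructor
  · have := Real.summable_pow_div_factorial |x0 / 2 * t|
    refine this.congr (fun n => ?_)
    rw [abs_div, abs_pow, Nat.abs_cast]
  · rw [Real.exp_eq_exp_ℝ]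
    have := NormedSpace.expSeries_div_hasSum_exp (x0 / 2 * t)
    exact this

lemma ps_summable (t : ℝ) : Summable (fun n => |ps n * t ^ n|) := by
  have := Real.summable_pow_div_factorial |x0 * t|
  refine Summable.of_nonneg_of_le (fun n => abs_nonneg _) (fun n => ?_) this
  have hp : |p n| ≤ 1 := by
    unfold p pz
    split_ifs <;> norm_num
  have e : ps n * t ^ n = p n * ((x0 * t) ^ n / n.factorial) := by
    unfold ps; rw [mul_pow]; ring
  rw [e, abs_mul, abs_div, abs_pow, Nat.abs_cast]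
  calc _ ≤ 1 * (|x0 * t| ^ n / n.factorial) := by gcongr
    _ = _ := one_mul _

/-- The primitive cube root of unity. -/
noncomputable def om : ℂ := ⟨-1 / 2, Real.sqrt 3 / 2⟩

/-- `exp(iπ/6)`. -/
noncomputable def ze : ℂ := ⟨Real.sqrt 3 / 2, 1 / 2⟩

lemma om_sq : om ^ 2 = - 1 - om := by
  have h : Real.sqrt 3 * Real.sqrt 3 = 3 := Real.mul_self_sqrt (by norm_num)
  apply Complex.ext
  · simp [om, pow_two, Complex.mul_re]; nlinarith
  · simp [om, pow_two, Complex.mul_im]; ring

lemma p_eq (n : ℕ) : p n = 2 / Real.sqrt 3 * (ze * om ^ n).re := by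
  have h : Real.sqrt 3 * Real.sqrt 3 = 3 := Real.mul_self_sqrt (by norm_num)
  have h5 : Real.sqrt 3 ≠ 0 := by positivity
  induction n using Nat.strong_induction_on with
  | _ n ih =>
    rcases n with _ | _ | n
    · simp [p_zero, ze]
    · simp [p_one, ze, om, Complex.mul_re]; field_simp; ring
    · rw [p_add_two, ih (n + 1) (by omega), ih n (by omega)]
      have : ze * om ^ (n + 1 + 1) = - (ze * om ^ (n + 1)) - ze * om ^ n := by
        rw [show om ^ (n + 1 + 1) = om ^ n * om ^ 2 by ring, om_sq]; ring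
      rw [this]
      simp only [Complex.sub_re, Complex.neg_re]
      ring

lemma ps_hasSum (t : ℝ) : HasSum (fun n => ps n * t ^ n)
    (2 / Real.sqrt 3 * (Real.exp (-(x0 / 2 * t)) * Real.sin (Real.pi * ((1 - t) / 3)))) := by
  have h5 : Real.sqrt 3 ≠ 0 := by positivity
  have h1 : HasSum (fun n : ℕ => (om * ((x0 * t : ℝ) : ℂ)) ^ n / (n.factorial : ℂ))
      (Complex.exp (om * ((x0 * t : ℝ) : ℂ))) := by
    rw [Complex.exp_eq_exp_ℂ]
    exact NormedSpace.expSeries_div_hasSum_exp _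
  have h2 := (Complex.hasSum_re (h1.mul_left ze)).mul_left (2 / Real.sqrt 3)
  have e1 : (fun n : ℕ => 2 / Real.sqrt 3 * (ze * ((om * ((x0 * t : ℝ) : ℂ)) ^ n / (n.factorial : ℂ))).re)
      = fun n => ps n * t ^ n := by
    funext n
    have : ze * ((om * ((x0 * t : ℝ) : ℂ)) ^ n / (n.factorial : ℂ))
        = (((x0 * t) ^ n / n.factorial : ℝ) : ℂ) * (ze * om ^ n) := by
      push_cast
      rw [mul_pow, mul_pow]
      ring
    rw [this, Complex.re_ofReal_mul]
    unfold ps
    rw [p_eq, mul_pow]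
    ring
  rw [e1] at h2
  have e2 : 2 / Real.sqrt 3 * (ze * Complex.exp (om * ((x0 * t : ℝ) : ℂ))).re
      = 2 / Real.sqrt 3 * (Real.exp (-(x0 / 2 * t)) * Real.sin (Real.pi * ((1 - t) / 3))) := by
    congr 1
    rw [Complex.mul_re, Complex.exp_re, Complex.exp_im]
    have r1 : (om * ((x0 * t : ℝ) : ℂ)).re = -(x0 / 2 * t) := by
      rw [Complex.re_mul_ofReal]; simp [om]; ring
    have r2 : (om * ((x0 * t : ℝ) : ℂ)).im = Real.pi / 3 * t := by
      rw [Complex.im_mul_ofReal]
      simp only [om]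
      have := sqrt3_x0
      linear_combination t / 2 * this
    rw [r1, r2]
    have s1 : Real.pi * ((1 - t) / 3) = Real.pi / 3 - Real.pi / 3 * t := by ring
    rw [s1, Real.sin_sub, Real.sin_pi_div_three, Real.cos_pi_div_three]
    simp only [ze]
    ring
  rw [e2] at h2
  exact h2

open PowerSeries in
lemma prod_eq : (mk ps * mk ex) * mk V = C x0 := by
  have hV0 : ∀ t : ℝ, |t| < 1 → Summable (fun n => |V n * t ^ n|) := by
    intro t ht
    obtain ⟨K, hK⟩ := abs_V_le
    have h1 : Summable (fun n : ℕ => K * |t| ^ n) :=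
      (summable_geometric_of_lt_one (abs_nonneg t) ht).mul_left K
    refine Summable.of_nonneg_of_le (fun n => abs_nonneg _) (fun n => ?_) h1
    rw [abs_mul, abs_pow]
    gcongr
    exact hK n
  have h1 : ∀ t : ℝ, |t| < 1 →
      Summable (fun n => |coeff n ((mk ps * mk ex) * mk V) * t ^ n|) ∧
      HasSum (fun n => coeff n ((mk ps * mk ex) * mk V) * t ^ n) x0 := by
    intro t ht
    obtain ⟨a1, a2⟩ := cauchy (ps_summable t) (ex_sum t).1 (ps_hasSum t) (ex_sum t).2
    have hc : mk (fun n => coeff n (mk ps * mk ex)) = mk ps * mk ex := by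
      ext n; simp
    obtain ⟨b1, b2⟩ := cauchy (a := fun n => coeff n (mk ps * mk ex)) (b := V) a1 (hV0 t ht) a2 (V_hasSum ht)
    rw [hc] at b1 b2
    refine ⟨b1, ?_⟩
    convert b2 using 1
    obtain ⟨c1, c2⟩ := abs_lt.1 ht
    have hs : Real.sin (Real.pi * ((1 - t) / 3)) ≠ 0 := by
      apply ne_of_gt
      apply Real.sin_pos_of_pos_of_lt_pi
      · have := Real.pi_pos
        have : 0 < (1 - t) / 3 := by linarith
        positivity
      · have := Real.pi_pos
        nlinarith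
    have h5 : Real.sqrt 3 ≠ 0 := by positivity
    have he : Real.exp (-(x0 / 2 * t)) * Real.exp (x0 / 2 * t) = 1 := by
      rw [← Real.exp_add]; simp
    have e3 : 2 / Real.sqrt 3 * (Real.exp (-(x0 / 2 * t)) * Real.sin (Real.pi * ((1 - t) / 3)))
        * Real.exp (x0 / 2 * t) * (Real.pi / 3 / Real.sin (Real.pi * ((1 - t) / 3)))
        = 2 / Real.sqrt 3 * (Real.exp (-(x0 / 2 * t)) * Real.exp (x0 / 2 * t)) * (Real.pi / 3) := by
      generalize Real.sin (Real.pi * ((1 - t) / 3)) = Z at hs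
      field_simp
    rw [e3, he]
    unfold x0
    field_simp
  have h2 : ∀ n, coeff n ((mk ps * mk ex) * mk V) - coeff n (C x0 : PowerSeries ℝ) = 0 := by
    have hC : ∀ n (t : ℝ), coeff n (C x0 : PowerSeries ℝ) * t ^ n = if n = 0 then x0 else 0 := by
      intro n t
      rw [coeff_C]
      split_ifs with h
      · subst h; simp
      · simp
    apply uniq
    · intro t ht
      have s2 : Summable (fun n => |coeff n (C x0 : PowerSeries ℝ) * t ^ n|) := by
        simp only [hC]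
        exact (hasSum_ite_eq (0:ℕ) (|x0|)).summable.congr (fun n => by split_ifs <;> simp)
      have := (h1 t ht).1.of_abs.sub s2.of_abs
      have h3 := this.abs
      refine h3.congr (fun n => ?_)
      rw [sub_mul]
    · intro t ht
      have s2 : HasSum (fun n => coeff n (C x0 : PowerSeries ℝ) * t ^ n) x0 := by
        simp only [hC]
        exact hasSum_ite_eq 0 x0
      have := (h1 t ht).2.sub s2
      rw [sub_self] at this
      simpa only [sub_mul] using this
  ext n
  exact sub_eq_zero.1 (h2 n)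

/-- The rescaled numbers. -/
noncomputable def U (n : ℕ) : ℝ := u n * x0 ^ (n + 1)

open PowerSeries in
/-- The exact formula. -/
theorem U_eq : mk U = mk ex * mk V := by
  have h1 : mk ps * mk U = C x0 := by
    ext n
    rw [coeff_mul, Finset.Nat.sum_antidiagonal_eq_sum_range_succ_mk, coeff_C]
    have e : ∀ k ∈ range (n + 1), coeff k (mk ps) * coeff (n - k) (mk U)
        = x0 ^ (n + 1) * (p k * (1 / (k.factorial : ℝ)) * u (n - k)) := by
      intro k hk
      have hk' : k ≤ n := by simpa [Nat.lt_succ_iff] using hk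
      rw [coeff_mk, coeff_mk]
      unfold ps U
      have e2 : x0 ^ (n + 1) = x0 ^ k * x0 ^ (n - k + 1) := by
        rw [← pow_add]; congr 1; omega
      rw [e2]
      ring
    rw [Finset.sum_congr rfl e, ← Finset.mul_sum, A1]
    split_ifs with h
    · subst h; simp
    · simp
  have h2 : mk ps * mk U = mk ps * (mk ex * mk V) := by
    rw [h1, ← mul_assoc, prod_eq]
  have h3 : (mk ps : PowerSeries ℝ) ≠ 0 := by
    intro h
    have := congrArg (coeff 0) h
    simp [ps, p_zero] at this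
  exact mul_left_cancel₀ h3 h2

end Pool.Agent.R711.DD
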