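import Pool.Agent.R711.DD.Bounds

/-!
The sign of `Dd i j`, and the link with the numbers of permutations.
-/

namespace Pool.Agent.R711.DD

open Finset

lemma avg (t : ℕ → ℝ) (m K : ℝ) (J : ℕ) (hK : 0 ≤ K) (h0 : m ≤ t J) (h1 : m ≤ t (J + 1))
    (hrec : ∀ j, J ≤ j → 1 / 2 * t (j + 1) + 1 / 2 * t j - K * (1 / 4) ^ (j + 1) ≤ t (j + 2)) (k : ℕ) :
    m - K / 3 * (1 / 4) ^ J ≤ t (J + k) := by
  have key : ∀ k : ℕ, m - K / 3 * (1 / 4) ^ J * (1 - (1 / 4) ^ k) ≤ t (J + k) ∧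
      m - K / 3 * (1 / 4) ^ J * (1 - (1 / 4) ^ k) ≤ t (J + k + 1) := by
    intro k
    induction k with
    | zero => simpa using ⟨h0, h1⟩
    | succ k ih =>
      obtain ⟨i1, i2⟩ := ih
      have hr := hrec (J + k) (by omega)
      have e1 : (1 / 4 : ℝ) ^ (J + k + 1) = (1 / 4) ^ J * ((1 / 4) ^ k * (1 / 4)) := by
        rw [show J + k + 1 = J + (k + 1) by ring, pow_add, pow_succ]
      rw [e1] at hr
      have hp : 0 ≤ K * ((1 / 4) ^ J * (1 / 4) ^ k) := by positivity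
      rw [pow_succ]
      refine ⟨?_, ?_⟩
      · rw [← add_assoc]
        nlinarith
      · rw [show J + (k + 1) + 1 = J + k + 2 by ring]
        nlinarith
  have h := (key k).1
  have hp : 0 ≤ K / 3 * (1 / 4) ^ J * (1 / 4) ^ k := by positivity
  nlinarith

lemma row_low (i j : ℕ) (hj : 1 ≤ j) :
    1 / 2 * ((-1) ^ i * Dd i (j + 1)) + 1 / 2 * ((-1) ^ i * Dd i j) - 4000 * (1 / 4) ^ (j + 1)
      ≤ (-1) ^ i * Dd i (j + 2) := by
  have h := row_rec i j hj
  have h2 : |(-1) ^ i * (Dd i (j + 2) - 1 / 2 * Dd i (j + 1) - 1 / 2 * Dd i j)|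
      ≤ 4000 * (1 / 4) ^ (j + 1) := by
    rw [abs_mul, abs_pow, abs_neg, abs_one, one_pow, one_mul]; exact h
  have h3 := (abs_le.1 h2).1
  linarith

lemma x0_ge : (6 / 5 : ℝ) ≤ x0 := by have := x0_bds.1; linarith

lemma low_val (i j : ℕ) (hi : i ≤ 15) (hj : j ≤ 16) (hD : 0 ≤ (-1) ^ i * DZ i j) :
    (6 / 5 : ℝ) ^ (i + j + 2) * ((((-1) ^ i * DZ i j : ℤ) : ℝ) / (den : ℝ)) ≤ (-1) ^ i * Dd i j := by
  rw [Dd_val i j hi hj]
  have hd : (0 : ℝ) < den := by exact_mod_cast den_pos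
  have hD' : (0 : ℝ) ≤ (((-1) ^ i * DZ i j : ℤ) : ℝ) := by exact_mod_cast hD
  have e : (-1 : ℝ) ^ i * (x0 ^ (i + j + 2) * ((DZ i j : ℝ) / (den : ℝ)))
      = x0 ^ (i + j + 2) * ((((-1) ^ i * DZ i j : ℤ) : ℝ) / (den : ℝ)) := by
    push_cast; ring
  rw [e]
  have := x0_ge
  gcongr

lemma small_row (i j : ℕ) (h2 : 2 ≤ i) (hi : i < 15) (hij : i < j) : 0 < (-1) ^ i * Dd i j := by
  obtain ⟨i', rfl⟩ : ∃ i', i = i' + 2 := ⟨i - 2, by omega⟩
  have hd : (0 : ℝ) < den := by exact_mod_cast den_pos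
  by_cases hj : j < 15
  · have h := check1 i' (by simp; omega) j (by simpa using hj) hij
    have h' : 0 < (-1) ^ (i' + 2) * DZ (i' + 2) j := by
      rw [pow_add]; simpa using h
    have h3 := low_val (i' + 2) j (by omega) (by omega) h'.le
    have h4 : (0 : ℝ) < (((-1) ^ (i' + 2) * DZ (i' + 2) j : ℤ) : ℝ) := by exact_mod_cast h'
    refine lt_of_lt_of_le ?_ h3
    positivity
  · have hend : ∀ j' ∈ range 2, (2 / 1000000 : ℝ) ≤ (-1) ^ (i' + 2) * Dd (i' + 2) (j' + 15) := by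
      intro j' hj'
      have h := check2 i' (by simp; omega) j' hj'
      have hj'' : j' < 2 := by simpa using hj'
      have hdz : (0 : ℤ) < den := by exact_mod_cast den_pos
      have h' : 0 < (-1) ^ (i' + 2) * DZ (i' + 2) (j' + 15) := by
        by_contra hcon
        have h1 : (-1) ^ i' * DZ (i' + 2) (j' + 15) ≤ 0 := by
          rw [pow_add] at hcon; simpa using hcon
        have h2 : (0:ℤ) < 2 * 5 ^ (i' + 2 + (j' + 15) + 2) * (den : ℤ) := by positivity
        have h3 : 1000000 * 6 ^ (i' + 2 + (j' + 15) + 2) * ((-1) ^ i' * DZ (i' + 2) (j' + 15)) ≤ 0 :=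
          mul_nonpos_of_nonneg_of_nonpos (by positivity) h1
        linarith
      have h3 := low_val (i' + 2) (j' + 15) (by omega) (by omega) h'.le
      refine le_trans ?_ h3
      have e : ((-1 : ℤ)) ^ (i' + 2) * DZ (i' + 2) (j' + 15) = (-1) ^ i' * DZ (i' + 2) (j' + 15) := by
        rw [pow_add]; ring
      rw [e, div_pow, div_mul_div_comm, div_le_div_iff₀ (by norm_num) (by positivity)]
      have h5 : ((2 * 5 ^ (i' + 2 + (j' + 15) + 2) * (den : ℤ) : ℤ) : ℝ)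
        ≤ ((1000000 * 6 ^ (i' + 2 + (j' + 15) + 2) * ((-1) ^ i' * DZ (i' + 2) (j' + 15)) : ℤ) : ℝ) := by
        exact_mod_cast h
      push_cast at h5 ⊢
      linarith
    have ha := avg (fun j => (-1) ^ (i' + 2) * Dd (i' + 2) j) (2 / 1000000) 4000 15 (by norm_num)
      (hend 0 (by simp)) (hend 1 (by simp))
      (fun j hj => row_low (i' + 2) j (by omega)) (j - 15)
    rw [show 15 + (j - 15) = j by omega] at ha
    refine lt_of_lt_of_le ?_ ha
    norm_num

lemma diag_rec (i : ℕ) (hi : 1 ≤ i) :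
    |Dd (i + 1) (i + 2) + 1 / 2 * Dd i (i + 1)| ≤ 12000 * (1 / 4) ^ (i + 1) := by
  have h1 := row_rec i i hi
  have h2 := row_rec (i + 2) i hi
  rw [Dd_self, Dd_anti (i + 1) (i + 2), Dd_anti i (i + 2)] at h2
  rw [Dd_self] at h1
  rw [abs_le] at h1 h2 ⊢
  constructor <;> linarith [h1.1, h1.2, h2.1, h2.2]

lemma diag_low (i : ℕ) : 0.2 + 12000 * (1 / 2) ^ (i + 15) ≤ (-2) ^ (i + 15) * Dd (i + 15) (i + 16) := by
  induction i with
  | zero =>
    have hd : (0 : ℝ) < den := by exact_mod_cast den_pos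
    have hdz : (0 : ℤ) < den := by exact_mod_cast den_pos
    have h := check3
    have h' : 0 < (-1) ^ 15 * DZ 15 16 := by
      have h2 : (0:ℤ) < 58 * 5 ^ 33 * (den : ℤ) := by positivity
      by_contra hcon
      have h1 : - DZ 15 16 ≤ 0 := by
        have : (-1 : ℤ) ^ 15 * DZ 15 16 = - DZ 15 16 := by ring
        rw [this] at hcon; linarith
      have h3 : 100 * 6 ^ 33 * 2 ^ 15 * (- DZ 15 16) ≤ 0 :=
        mul_nonpos_of_nonneg_of_nonpos (by positivity) h1
      linarith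
    have h3 := low_val 15 16 (by omega) (by omega) h'.le
    have h4 : (0.58 : ℝ) ≤ 2 ^ 15 * ((6 / 5 : ℝ) ^ (15 + 16 + 2) * ((((-1) ^ 15 * DZ 15 16 : ℤ) : ℝ) / (den : ℝ))) := by
      have e : ((-1 : ℤ)) ^ 15 * DZ 15 16 = - DZ 15 16 := by ring
      rw [e, div_pow, div_mul_div_comm, ← mul_div_assoc, le_div_iff₀ (by positivity)]
      have h5 : ((58 * 5 ^ 33 * (den : ℤ) : ℤ) : ℝ)
        ≤ ((100 * 6 ^ 33 * 2 ^ 15 * (- DZ 15 16) : ℤ) : ℝ) := by
        exact_mod_cast h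
      push_cast at h5 ⊢
      norm_num at h5 ⊢
      linarith
    have h5 : (-2 : ℝ) ^ (0 + 15) * Dd (0 + 15) (0 + 16) = 2 ^ 15 * ((-1) ^ 15 * Dd 15 16) := by
      norm_num
    rw [h5]
    have h6 : (2 : ℝ) ^ 15 * ((6 / 5 : ℝ) ^ (15 + 16 + 2) * ((((-1) ^ 15 * DZ 15 16 : ℤ) : ℝ) / (den : ℝ)))
      ≤ 2 ^ 15 * ((-1) ^ 15 * Dd 15 16) := by gcongr
    refine le_trans ?_ (h4.trans h6)
    norm_num
  | succ i ih =>
    have h := diag_rec (i + 15) (by omega)
    have h2 : |(-2) ^ (i + 16) * (Dd (i + 15 + 1) (i + 15 + 2) + 1 / 2 * Dd (i + 15) (i + 15 + 1))|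
        ≤ 12000 * (1 / 2) ^ (i + 16) := by
      rw [abs_mul, abs_pow, abs_neg, Nat.abs_ofNat]
      calc (2:ℝ) ^ (i + 16) * |Dd (i + 15 + 1) (i + 15 + 2) + 1 / 2 * Dd (i + 15) (i + 15 + 1)|
          ≤ (2:ℝ) ^ (i + 16) * (12000 * (1 / 4) ^ (i + 15 + 1)) := by gcongr
        _ = 12000 * (1 / 2) ^ (i + 16) := by
          rw [show i + 15 + 1 = i + 16 by ring]
          have : (1 / 2 : ℝ) ^ (i + 16) = 2 ^ (i + 16) * (1 / 4) ^ (i + 16) := by
            rw [← mul_pow]; norm_num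
          rw [this]; ring
    have h3 := (abs_le.1 h2).1
    rw [show i + 1 + 15 = i + 16 by ring, show i + 1 + 16 = i + 17 by ring]
    rw [show i + 15 + 1 = i + 16 by ring, show i + 15 + 2 = i + 17 by ring] at h3
    have e1 : (-2 : ℝ) ^ (i + 16) = (-2) ^ (i + 15) * (-2) := by rw [← pow_succ]
    have e2 : (1 / 2 : ℝ) ^ (i + 16) = (1 / 2) ^ (i + 15) * (1 / 2) := by rw [← pow_succ]
    rw [mul_add] at h3
    have e3 : (-2 : ℝ) ^ (i + 16) * (1 / 2 * Dd (i + 15) (i + 16)) = - ((-2) ^ (i + 15) * Dd (i + 15) (i + 16)) := by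
      rw [e1]; ring
    rw [e3, e2] at h3
    rw [e2]
    linarith

lemma big_row (i j : ℕ) (hi : 15 ≤ i) (hij : i < j) : 0 < (-1) ^ i * Dd i j := by
  obtain ⟨i', rfl⟩ : ∃ i', i = i' + 15 := ⟨i - 15, by omega⟩
  have h := diag_low i'
  set q : ℝ := (1 / 2) ^ (i' + 15) with hq
  have hq0 : 0 < q := by positivity
  have hq1 : q ≤ 1 / 32768 := by
    rw [hq, pow_add]
    have : (1 / 2 : ℝ) ^ i' ≤ 1 := pow_le_one₀ (by norm_num) (by norm_num)
    nlinarith
  have hqq : (1 / 4 : ℝ) ^ (i' + 15) = q * q := by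
    rw [hq, ← mul_pow]; norm_num
  have e1 : (-1 : ℝ) ^ (i' + 15) * Dd (i' + 15) (i' + 16)
      = q * ((-2) ^ (i' + 15) * Dd (i' + 15) (i' + 16)) := by
    rw [← mul_assoc, hq, ← mul_pow]; norm_num
  have t1 : 0.2 * q ≤ (-1 : ℝ) ^ (i' + 15) * Dd (i' + 15) (i' + 16) := by
    rw [e1]
    nlinarith
  have t2 : 0.1 * q - 1000 * (q * q) ≤ (-1 : ℝ) ^ (i' + 15) * Dd (i' + 15) (i' + 17) := by
    have hr := row_low (i' + 15) (i' + 15) (by omega)
    rw [Dd_self] at hr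
    rw [show i' + 15 + 1 = i' + 16 by ring, show i' + 15 + 2 = i' + 17 by ring] at hr
    have e2 : (1 / 4 : ℝ) ^ (i' + 16) = q * q * (1 / 4) := by
      rw [← hqq, ← pow_succ]
    rw [e2] at hr
    nlinarith
  have ha := avg (fun j => (-1) ^ (i' + 15) * Dd (i' + 15) j) (0.1 * q - 1000 * (q * q)) 4000 (i' + 16)
    (by norm_num) (by show _ ≤ (-1 : ℝ) ^ (i' + 15) * Dd (i' + 15) (i' + 16); nlinarith) t2
    (fun j hj => row_low (i' + 15) j (by omega)) (j - (i' + 16))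
  rw [show i' + 16 + (j - (i' + 16)) = j by omega] at ha
  refine lt_of_lt_of_le ?_ ha
  have e2 : (1 / 4 : ℝ) ^ (i' + 16) = q * q * (1 / 4) := by
    rw [← hqq, ← pow_succ]
  rw [e2]
  nlinarith

theorem sign (i j : ℕ) (h2 : 2 ≤ i) (hij : i < j) : 0 < (-1) ^ i * Dd i j := by
  by_cases hi : i < 15
  · exact small_row i j h2 hi hij
  · exact big_row i j (by omega) hij

lemma p_qz (n : ℕ) : p n = (qz (n + 1) : ℝ) := by
  unfold p pz qz
  have : n % 3 = 0 ∨ n % 3 = 1 ∨ n % 3 = 2 := by omega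
  rcases this with h | h | h
  · rw [show (n + 1) % 3 = 1 by omega, h]; norm_num
  · rw [show (n + 1) % 3 = 2 by omega, h]; norm_num
  · rw [show (n + 1) % 3 = 0 by omega, h]; norm_num

lemma delta_eq (I J : ℕ) :
    E (I + 2 + (J + 1)) (fun d => ind (single I d)) - E (I + 2 + (J + 1)) (fun d => ind (single (I + 1) d))
      = if J = 0 then E (I + 2 + (J + 1)) (fun d => ind (single I d)) - E (I + 2 + (J + 1)) (fun d => ind (single (I + 1) d)) else
      ∑ a ∈ range (I + 2), ∑ b ∈ range (J + 1),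
        (LZ a b : ℝ) * (1 / ((a + b + 2).factorial : ℝ)) * (u (I + 2 - 1 - a) * u (J + 1 - 1 - b)) := by
  split_ifs with hJ
  · rfl
  · have h1 := A2 I (J + 1) (by omega)
    have h2 := A2 (I + 1) J (by omega)
    rw [show I + 1 + 2 + J = I + 2 + (J + 1) by ring] at h2
    rw [h1, h2]
    have e1 : ∑ a ∈ range (I + 2), ∑ b ∈ range (J + 1),
        (LZ a b : ℝ) * (1 / ((a + b + 2).factorial : ℝ)) * (u (I + 2 - 1 - a) * u (J + 1 - 1 - b))
        = ∑ a ∈ range (I + 2), ∑ b ∈ range (J + 1),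
        ((qz a : ℝ) * qz (b + 1)) * ((1 / ((a + b + 2).factorial : ℝ)) * (u (I + 2 - 1 - a) * u (J + 1 - 1 - b)))
        - ∑ a ∈ range (I + 2), ∑ b ∈ range (J + 1),
        ((qz (a + 1) : ℝ) * qz b) * ((1 / ((a + b + 2).factorial : ℝ)) * (u (I + 2 - 1 - a) * u (J + 1 - 1 - b))) := by
      rw [← Finset.sum_sub_distrib]
      apply Finset.sum_congr rfl
      intro a _
      rw [← Finset.sum_sub_distrib]
      apply Finset.sum_congr rfl
      intro b _
      unfold LZ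
      push_cast
      ring
    have hq0 : (qz 0 : ℝ) = 0 := by simp [qz]
    rw [e1]
    congr 1
    · rw [Finset.sum_range_succ' _ (I + 1)]
      simp only [hq0, zero_mul, Finset.sum_const_zero, add_zero]
      apply Finset.sum_congr rfl
      intro a _
      apply Finset.sum_congr rfl
      intro b _
      rw [p_qz, p_qz]
      rw [show a + 1 + b + 2 = a + b + 3 by ring, show I + 2 - 1 - (a + 1) = I - a by omega]
      ring
    · apply Finset.sum_congr rfl
      intro a _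
      rw [Finset.sum_range_succ' _ J]
      simp only [hq0, mul_zero, zero_mul, add_zero]
      apply Finset.sum_congr rfl
      intro b _
      rw [p_qz, p_qz]
      rw [show a + (b + 1) + 2 = a + b + 3 by ring, show I + 2 - 1 - a = I + 1 - a by omega,
        show J + 1 - 1 - (b + 1) = J - 1 - b by omega]
      ring

/-- Sign of the difference of the normalized counts. -/
theorem sign_E (I J : ℕ) (h : I + 1 < J) :
    0 < (-1) ^ I * (E (I + 2 + (J + 1)) (fun d => ind (single I d))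
      - E (I + 2 + (J + 1)) (fun d => ind (single (I + 1) d))) := by
  have h1 := sign (I + 2) (J + 1) (by omega) (by omega)
  rw [Dd_eq] at h1
  rw [delta_eq, if_neg (by omega)]
  have hx := x0_pos
  have e : (-1 : ℝ) ^ (I + 2) = (-1) ^ I := by rw [pow_add]; norm_num
  rw [e, mul_left_comm] at h1
  exact (mul_pos_iff_of_pos_left (by positivity)).1 h1

end Pool.Agent.R711.DD
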